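import Mathlib

/-! Elementary inequalities for concave powers. -/

namespace Pool.Agent.P.MP_5faa0b_co

open Finset

theorem rpow_tangent {γ x a : ℝ} (h0 : 0 < γ) (h1 : γ < 1) (hx : 0 < x) (ha : 0 ≤ a) :
    a ^ γ ≤ x ^ γ * ((1 - γ) + γ * (a / x)) := by
  have h := Real.geom_mean_le_arith_mean2_weighted (w₁ := γ) (w₂ := 1 - γ) (p₁ := a / x)
    (p₂ := 1) h0.le (by linarith) (div_nonneg ha hx.le) zero_le_one (by ring)
  rw [Real.one_rpow, mul_one, mul_one, Real.div_rpow ha hx.le,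
    div_le_iff₀ (Real.rpow_pos_of_pos hx _)] at h
  linarith

/-- power mean inequality -/
theorem sum_rpow_le {ι : Type} {γ : ℝ} (h0 : 0 < γ) (h1 : γ < 1) (A : Finset ι) (a : ι → ℝ)
    (ha : ∀ i ∈ A, 0 ≤ a i) {k x : ℝ} (hk : (A.card : ℝ) ≤ k) (hx : 0 ≤ x)
    (hS : ∑ i ∈ A, a i ≤ k * x) : ∑ i ∈ A, a i ^ γ ≤ k * x ^ γ := by
  have hk0 : 0 ≤ k := le_trans (Nat.cast_nonneg _) hk
  rcases hx.eq_or_lt with rfl | hx
  · have : ∀ i ∈ A, a i = 0 := by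
      rw [mul_zero] at hS
      exact (sum_eq_zero_iff_of_nonneg ha).1 (le_antisymm hS (sum_nonneg ha))
    rw [sum_congr rfl fun i hi => by rw [this i hi]]
    simp [Real.zero_rpow h0.ne']
  · refine (sum_le_sum fun i hi => rpow_tangent h0 h1 hx (ha i hi)).trans ?_
    rw [← mul_sum, sum_add_distrib, ← mul_sum, ← sum_div, sum_const, nsmul_eq_mul, mul_comm k]
    refine mul_le_mul_of_nonneg_left ?_ (Real.rpow_nonneg hx.le _)
    have : (∑ i ∈ A, a i) / x ≤ k := by rwa [div_le_iff₀ hx]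
    nlinarith

theorem sum_rpow_le' {ι : Type} {γ : ℝ} (h0 : 0 < γ) (h1 : γ < 1) (A : Finset ι) (a : ι → ℝ)
    (ha : ∀ i ∈ A, 0 ≤ a i) {k S : ℝ} (hk : (A.card : ℝ) ≤ k) (hk0 : 0 < k) (hS0 : 0 ≤ S)
    (hS : ∑ i ∈ A, a i ≤ S) : ∑ i ∈ A, a i ^ γ ≤ k ^ (1 - γ) * S ^ γ := by
  have := sum_rpow_le h0 h1 A a ha hk (div_nonneg hS0 hk0.le) (x := S / k)
    (by rwa [mul_div_cancel₀ _ hk0.ne'])
  refine this.trans (le_of_eq ?_)
  rw [Real.div_rpow hS0 hk0.le, Real.rpow_sub hk0, Real.rpow_one]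
  ring

/-- one term of a family is controlled by the concavity defect -/
theorem exists_defect {γ : ℝ} (h0 : 0 < γ) (h1 : γ < 1) :
    ∃ K : ℝ, 0 ≤ K ∧ ∀ {ι : Type} (A : Finset ι) (a : ι → ℝ) (x : ℝ), (∀ i ∈ A, 0 ≤ a i) →
      0 ≤ x → ∑ i ∈ A, a i = A.card * x → ∀ d ∈ A,
      a d ^ γ ≤ K * x ^ γ + (A.card * x ^ γ - ∑ i ∈ A, a i ^ γ) := by
  set κ : ℝ := 2 ^ (1 / (1 - γ)) with hκ
  have hκ0 : 0 < κ := Real.rpow_pos_of_pos two_pos _
  have hκγ : κ ^ γ / κ = 1 / 2 := by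
    rw [← Real.rpow_sub_one hκ0.ne', hκ, ← Real.rpow_mul two_pos.le,
      show 1 / (1 - γ) * (γ - 1) = -1 by field_simp [(by linarith : 1 - γ ≠ 0)]; ring,
      Real.rpow_neg_one]
    norm_num
  refine ⟨2 * κ ^ γ, by positivity, ?_⟩
  intro ι A a x ha hx hS d hd
  classical
  rcases hx.eq_or_lt with rfl | hx
  · have : ∀ i ∈ A, a i = 0 := by
      rw [mul_zero] at hS
      exact (sum_eq_zero_iff_of_nonneg ha).1 hS
    rw [sum_congr rfl fun i hi => by rw [this i hi], this d hd]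
    simp [Real.zero_rpow h0.ne']
  · have hxγ : 0 < x ^ γ := Real.rpow_pos_of_pos hx _
    have h2 : ∀ i ∈ A, 0 ≤ x ^ γ * ((1 - γ) + γ * (a i / x)) - a i ^ γ := fun i hi =>
      sub_nonneg.2 (rpow_tangent h0 h1 hx (ha i hi))
    have h3 := single_le_sum h2 hd
    rw [sum_sub_distrib, ← mul_sum, sum_add_distrib, ← mul_sum, ← sum_div, sum_const,
      nsmul_eq_mul, hS, mul_div_cancel_right₀ _ hx.ne'] at h3
    have h4 := rpow_tangent h0 h1 (mul_pos hκ0 hx) (ha d hd)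
    rw [Real.mul_rpow hκ0.le hx.le] at h4
    have h5 : κ ^ γ * x ^ γ * (1 - γ + γ * (a d / (κ * x))) =
        κ ^ γ * x ^ γ * (1 - γ) + κ ^ γ / κ * (x ^ γ * γ * (a d / x)) := by
      field_simp
    rw [h5, hκγ] at h4
    have h6 : 0 < κ ^ γ * x ^ γ := by positivity
    nlinarith

/-- Hölder's inequality in the form needed for the potential -/
theorem young_sum {ι : Type} {α θ C h : ℝ} (h0 : 0 < θ) (h1 : θ < 1) (hα : 1 - θ ≤ α)
    (hh : 0 < h) (A : Finset ι) (y z x : ι → ℝ) (hy : ∀ i, 0 ≤ y i) (hz : ∀ i, 0 ≤ z i)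
    (hx0 : ∀ i, 0 ≤ x i) (hx1 : ∀ i, x i ≤ 1) (hC0 : 0 ≤ C) (hC : ∑ i ∈ A, y i * z i ≤ C)
    (hS : ∑ i ∈ A, y i * x i ≤ h) :
    ∑ i ∈ A, y i * (z i ^ θ * x i ^ α) ≤ (C + 1) * h ^ (1 - θ) := by
  have hhp : 0 < h ^ (1 - θ) := Real.rpow_pos_of_pos hh _
  have key : ∀ i, z i ^ θ * x i ^ α ≤ h ^ (1 - θ) * (θ * z i + (1 - θ) * (x i / h)) := by
    intro i
    have e1 : x i ^ α ≤ x i ^ (1 - θ) :=
      Real.rpow_le_rpow_of_exponent_ge' (hx0 i) (hx1 i) (by linarith) hα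
    have e2 := Real.geom_mean_le_arith_mean2_weighted (w₁ := θ) (w₂ := 1 - θ) (p₁ := z i)
      (p₂ := x i / h) h0.le (by linarith) (hz i) (div_nonneg (hx0 i) hh.le) (by ring)
    rw [Real.div_rpow (hx0 i) hh.le, ← mul_div_assoc, div_le_iff₀ hhp] at e2
    have e3 := mul_le_mul_of_nonneg_left e1 (Real.rpow_nonneg (hz i) θ)
    linarith
  refine (sum_le_sum fun i _ => mul_le_mul_of_nonneg_left (key i) (hy i)).trans ?_
  have e : ∑ i ∈ A, y i * (h ^ (1 - θ) * (θ * z i + (1 - θ) * (x i / h))) =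
      (θ * ∑ i ∈ A, y i * z i + (1 - θ) * ((∑ i ∈ A, y i * x i) / h)) * h ^ (1 - θ) := by
    rw [mul_sum, sum_div, mul_sum, ← sum_add_distrib, sum_mul]
    exact sum_congr rfl fun i _ => by ring
  rw [e]
  refine mul_le_mul_of_nonneg_right ?_ hhp.le
  have : (∑ i ∈ A, y i * x i) / h ≤ 1 := by rwa [div_le_one hh]
  nlinarith

end Pool.Agent.P.MP_5faa0b_co
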