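import Pool.Agent.P.MP_5faa0b_co.LocalLemma
import Pool.Agent.P.MP_5faa0b_co.Ineq

/-! Densities of chunks and the multiscale choice of a chunk. -/

namespace Pool.Agent.P.MP_5faa0b_co

open Finset

theorem sum_range_mul' (f : ℕ → ℝ) (k w : ℕ) :
    ∑ x ∈ range (k * w), f x = ∑ d ∈ range k, ∑ x ∈ range w, f (d * w + x) := by
  induction k with
  | zero => simp
  | succ k ih => rw [Nat.succ_mul, sum_range_add, sum_range_succ, ih]

/-- average of `f` over the chunk number `c` of width `w` -/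
noncomputable def Av (f : ℕ → ℝ) (w c : ℕ) : ℝ := (∑ x ∈ range w, f (c * w + x)) / w

/-- average of `F` over a product of two chunks -/
noncomputable def Dn (F : ℕ → ℕ → ℝ) (w c w' c' : ℕ) : ℝ := Av (fun x => Av (F x) w' c') w c

theorem Av_split (f : ℕ → ℝ) (k w c : ℕ) :
    ∑ d ∈ range k, Av f w (c * k + d) = k * Av f (k * w) c := by
  rcases Nat.eq_zero_or_pos k with rfl | hk
  · simp
  unfold Av
  rw [sum_range_mul', ← sum_div]
  have e : ∑ d ∈ range k, ∑ x ∈ range w, f ((c * k + d) * w + x) =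
      ∑ d ∈ range k, ∑ x ∈ range w, f (c * (k * w) + (d * w + x)) :=
    sum_congr rfl fun d _ => sum_congr rfl fun x _ => by congr 1; ring
  rw [e]
  have : (k : ℝ) ≠ 0 := by positivity
  push_cast
  rw [← mul_div_assoc, mul_div_mul_left _ _ this]

theorem Av_sum {ι : Type} (A : Finset ι) (f : ι → ℕ → ℝ) (w c : ℕ) :
    ∑ i ∈ A, Av (f i) w c = Av (fun x => ∑ i ∈ A, f i x) w c := by
  unfold Av
  rw [← sum_div, sum_comm]

theorem Av_mul (a : ℝ) (f : ℕ → ℝ) (w c : ℕ) : Av (fun x => a * f x) w c = a * Av f w c := by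
  unfold Av
  rw [← mul_sum, mul_div_assoc]

theorem Av_nonneg {f : ℕ → ℝ} (hf : ∀ x, 0 ≤ f x) (w c : ℕ) : 0 ≤ Av f w c :=
  div_nonneg (sum_nonneg fun _ _ => hf _) (Nat.cast_nonneg _)

theorem Dn_nonneg {F : ℕ → ℕ → ℝ} (hF : ∀ x y, 0 ≤ F x y) (w c w' c' : ℕ) :
    0 ≤ Dn F w c w' c' :=
  Av_nonneg (fun x => Av_nonneg (hF x) _ _) _ _

theorem Dn_split (F : ℕ → ℕ → ℝ) (k w c k' w' c' : ℕ) :
    ∑ d ∈ range k, ∑ d' ∈ range k', Dn F w (c * k + d) w' (c' * k' + d') =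
      k * k' * Dn F (k * w) c (k' * w') c' := by
  unfold Dn
  simp only [Av_sum, Av_split, Av_mul]
  rw [← mul_sum, Av_split]
  ring

theorem Dn_split0 (F : ℕ → ℕ → ℝ) (k w k' w' : ℕ) :
    ∑ d ∈ range k, ∑ d' ∈ range k', Dn F w d w' d' = k * k' * Dn F (k * w) 0 (k' * w') 0 := by
  simpa using Dn_split F k w 0 k' w' 0

theorem Dn_le {F : ℕ → ℕ → ℝ} (hF : ∀ x y, 0 ≤ F x y) {k w c k' w' c' : ℕ} (hc : c < k)
    (hc' : c' < k') : Dn F w c w' c' ≤ k * k' * Dn F (k * w) 0 (k' * w') 0 := by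
  rw [← Dn_split0]
  refine le_trans ?_ (single_le_sum (f := fun d => ∑ d' ∈ range k', Dn F w d w' d')
    (fun d _ => sum_nonneg fun _ _ => Dn_nonneg hF _ _ _ _) (mem_range.2 hc))
  exact single_le_sum (f := fun d' => Dn F w c w' d') (fun d _ => Dn_nonneg hF _ _ _ _)
    (mem_range.2 hc')

theorem Dn_shift (F : ℕ → ℕ → ℝ) (w c w' c' : ℕ) :
    Dn (fun x y => F (c * w + x) (c' * w' + y)) w 0 w' 0 = Dn F w c w' c' := by
  simp [Dn, Av]

theorem Dn_eq (F : ℕ → ℕ → ℝ) (w c w' c' : ℕ) :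
    Dn F w c w' c' =
      (∑ x ∈ range w, ∑ y ∈ range w', F (c * w + x) (c' * w' + y)) / (w * w') := by
  simp only [Dn, Av]
  rw [← sum_div, div_div, mul_comm (w' : ℝ)]

theorem Dn_symm (F : ℕ → ℕ → ℝ) (w c w' c' : ℕ) :
    Dn F w c w' c' = Dn (fun x y => F y x) w' c' w c := by
  rw [Dn_eq, Dn_eq, sum_comm, mul_comm (w : ℝ)]

theorem telescope2 (E : ℕ → ℕ → ℝ) (L : ℕ) (M : ℝ) (h0 : ∀ i j, 0 ≤ E i j)
    (h1 : ∀ i ≤ L, ∀ j ≤ L, E i j ≤ M) :
    ∑ i ∈ range L, ∑ j ∈ range L, (E i j - E (i + 1) (j + 1)) ≤ 2 * L * M := by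
  have e : ∑ i ∈ range L, ∑ j ∈ range L, (E i j - E (i + 1) (j + 1)) =
      ∑ j ∈ range L, ∑ i ∈ range L, (E i j - E (i + 1) j) +
        ∑ i ∈ range L, ∑ j ∈ range L, (E (i + 1) j - E (i + 1) (j + 1)) := by
    rw [sum_comm (s := range L) (t := range L) (f := fun j i => E i j - E (i + 1) j),
      ← sum_add_distrib]
    refine sum_congr rfl fun i _ => ?_
    rw [← sum_add_distrib]
    exact sum_congr rfl fun j _ => by ring
  rw [e]
  have a1 : ∑ j ∈ range L, ∑ i ∈ range L, (E i j - E (i + 1) j) ≤ ∑ _j ∈ range L, M := by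
    refine sum_le_sum fun j hj => ?_
    rw [sum_range_sub' (fun i => E i j)]
    have := h1 0 (Nat.zero_le _) j (mem_range.1 hj).le
    have := h0 L j
    linarith
  have a2 : ∑ i ∈ range L, ∑ j ∈ range L, (E (i + 1) j - E (i + 1) (j + 1)) ≤
      ∑ _j ∈ range L, M := by
    refine sum_le_sum fun i hi => ?_
    rw [sum_range_sub' (fun j => E (i + 1) j)]
    have := h1 (i + 1) (mem_range.1 hi) 0 (Nat.zero_le _)
    have := h0 (i + 1) L
    linarith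
  rw [sum_const, card_range, nsmul_eq_mul] at a1 a2
  linarith

theorem child_lt {m c i d : ℕ} (hc : c < m ^ i) (hd : d < m) : c * m + d < m ^ (i + 1) := by
  rw [pow_succ]
  nlinarith

theorem wd_zero {m L : ℕ} {wd : ℕ → ℕ} (h : ∀ i < L, wd i = m * wd (i + 1)) :
    ∀ i ≤ L, wd 0 = m ^ i * wd i := by
  intro i
  induction i with
  | zero => simp
  | succ i ih =>
    intro hi
    rw [ih (by omega), h i (by omega)]
    ring

/-- configurations: a scale and a chunk at that scale -/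
abbrev Cfg (m : ℕ) : Type := (i : Fin (m ^ 2)) × Fin (m ^ (i : ℕ))

/-- probability of a configuration -/
noncomputable def pc (m : ℕ) (ω : Cfg m) : ℝ := 1 / ((m : ℝ) ^ 2 * (m : ℝ) ^ (ω.1 : ℕ))

theorem sum_Cfg (m : ℕ) (f : ℕ → ℕ → ℝ) :
    ∑ ω : Cfg m, f ω.1 ω.2 = ∑ i ∈ range (m ^ 2), ∑ c ∈ range (m ^ i), f i c := by
  rw [Fintype.sum_sigma, ← Fin.sum_univ_eq_sum_range (fun i => ∑ c ∈ range (m ^ i), f i c)]
  refine sum_congr rfl fun i _ => ?_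
  rw [← Fin.sum_univ_eq_sum_range (fun c => f i c)]

theorem sum_pc {m : ℕ} (hm : 0 < m) : ∑ ω, pc m ω = 1 := by
  have := sum_Cfg m fun i _ => 1 / ((m : ℝ) ^ 2 * (m : ℝ) ^ i)
  unfold pc
  rw [this]
  have hm' : (m : ℝ) ≠ 0 := by positivity
  have e : ∀ i ∈ range (m ^ 2), ∑ _c ∈ range (m ^ i), 1 / ((m : ℝ) ^ 2 * (m : ℝ) ^ i) =
      1 / (m : ℝ) ^ 2 := by
    intro i _
    rw [sum_const, card_range, nsmul_eq_mul]
    push_cast
    field_simp
  rw [sum_congr rfl e, sum_const, card_range, nsmul_eq_mul]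
  push_cast
  field_simp

theorem pair_step {γ : ℝ} (h0 : 0 < γ) (h1 : γ < 1) :
    ∃ C : ℝ, 0 ≤ C ∧ ∀ m : ℕ, 0 < m → ∀ (F : ℕ → ℕ → ℝ) (wd wd' : ℕ → ℕ),
      (∀ x y, 0 ≤ F x y) → (∀ i < m ^ 2, wd i = m * wd (i + 1)) →
      (∀ i < m ^ 2, wd' i = m * wd' (i + 1)) →
      ∃ G : Cfg m → Cfg m → ℝ, (∀ ω ω', 0 ≤ G ω ω') ∧
        ∑ ω, ∑ ω', pc m ω * pc m ω' * G ω ω' ≤ 1 ∧
        ∀ ω ω' : Cfg m, ∀ d < m, ∀ d' < m,
          Dn F (wd (ω.1 + 1)) (ω.2 * m + d) (wd' (ω'.1 + 1)) (ω'.2 * m + d') ^ γ ≤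
            C * G ω ω' * Dn F (wd 0) 0 (wd' 0) 0 ^ γ := by
  obtain ⟨K, hK, hdef⟩ := exists_defect h0 h1
  refine ⟨K + 2, by linarith, ?_⟩
  intro m hm F wd wd' hF hw hw'
  have hm' : (0 : ℝ) < m := by positivity
  set ρ := Dn F (wd 0) 0 (wd' 0) 0 with hρ
  have hρ0 : 0 ≤ ρ := Dn_nonneg hF _ _ _ _
  set Y : ℕ → ℕ → ℕ → ℕ → ℝ := fun i c j c' => Dn F (wd i) c (wd' j) c' with hY
  have hY0 : ∀ i c j c', 0 ≤ Y i c j c' := fun _ _ _ _ => Dn_nonneg hF _ _ _ _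
  set G0 : ℕ → ℕ → ℕ → ℕ → ℝ := fun i c j c' => K * Y i c j c' ^ γ + ((m : ℝ) ^ 2 *
    Y i c j c' ^ γ - ∑ d ∈ range m, ∑ d' ∈ range m,
      Y (i + 1) (c * m + d) (j + 1) (c' * m + d') ^ γ) with hG0
  have hG : ∀ i < m ^ 2, ∀ c, ∀ j < m ^ 2, ∀ c', ∀ d < m, ∀ d' < m,
      Y (i + 1) (c * m + d) (j + 1) (c' * m + d') ^ γ ≤ G0 i c j c' := by
    intro i hi c j hj c' d hd d' hd'
    have := hdef (range m ×ˢ range m)
      (fun q : ℕ × ℕ => Y (i + 1) (c * m + q.1) (j + 1) (c' * m + q.2)) (Y i c j c')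
      (fun _ _ => hY0 _ _ _ _) (hY0 _ _ _ _) (by
        rw [sum_product, card_product, card_range]
        simp only [hY]
        rw [Dn_split, ← hw i hi, ← hw' j hj]
        push_cast
        ring) (d, d') (by simp [hd, hd'])
    rw [sum_product, card_product, card_range] at this
    simp only [hG0]
    push_cast at this
    rw [sq]
    exact this
  have hsum : ∀ i ≤ m ^ 2, ∀ j ≤ m ^ 2, ∑ c ∈ range (m ^ i), ∑ c' ∈ range (m ^ j), Y i c j c' =
      (m : ℝ) ^ i * (m : ℝ) ^ j * ρ := by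
    intro i hi j hj
    simp only [hY]
    rw [Dn_split0, ← wd_zero hw i hi, ← wd_zero hw' j hj]
    push_cast
    rfl
  rcases hρ0.eq_or_lt with hz | hpos
  · refine ⟨fun _ _ => 0, fun _ _ => le_rfl, by simp, ?_⟩
    intro ω ω' d hd d' hd'
    have h2 := child_lt ω.2.2 hd
    have h3 := child_lt ω'.2.2 hd'
    have h4 := Dn_le hF (w := wd (ω.1 + 1)) (w' := wd' (ω'.1 + 1)) h2 h3
    rw [← wd_zero hw _ ω.1.2, ← wd_zero hw' _ ω'.1.2, ← hρ, ← hz, mul_zero] at h4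
    rw [le_antisymm h4 (Dn_nonneg hF _ _ _ _), Real.zero_rpow h0.ne']
    simp
  have hργ : 0 < ρ ^ γ := Real.rpow_pos_of_pos hpos _
  have hden : 0 < (K + 2) * ρ ^ γ := by positivity
  refine ⟨fun ω ω' => G0 ω.1 ω.2 ω'.1 ω'.2 / ((K + 2) * ρ ^ γ), ?_, ?_, ?_⟩
  · intro ω ω'
    exact div_nonneg ((Real.rpow_nonneg (hY0 _ _ _ _) _).trans
      (hG _ ω.1.2 _ _ ω'.1.2 _ 0 hm 0 hm)) hden.le
  · set E : ℕ → ℕ → ℝ := fun i j =>
      (∑ c ∈ range (m ^ i), ∑ c' ∈ range (m ^ j), Y i c j c' ^ γ) / ((m : ℝ) ^ i * (m : ℝ) ^ j)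
      with hE
    have hE0 : ∀ i j, 0 ≤ E i j := fun i j =>
      div_nonneg (sum_nonneg fun _ _ => sum_nonneg fun _ _ => Real.rpow_nonneg (hY0 _ _ _ _) _)
        (by positivity)
    have hE1 : ∀ i ≤ m ^ 2, ∀ j ≤ m ^ 2, E i j ≤ ρ ^ γ := by
      intro i hi j hj
      simp only [hE]
      rw [div_le_iff₀ (by positivity), mul_comm]
      have := sum_rpow_le h0 h1 (range (m ^ i) ×ˢ range (m ^ j))
        (fun q : ℕ × ℕ => Y i q.1 j q.2) (fun _ _ => hY0 _ _ _ _)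
        (k := (m : ℝ) ^ i * (m : ℝ) ^ j) (x := ρ) (by simp) hρ0
        (by rw [sum_product]; exact (hsum i hi j hj).le)
      rwa [sum_product] at this
    have e1 : ∑ ω : Cfg m, ∑ ω' : Cfg m, pc m ω * pc m ω' *
        (G0 ω.1 ω.2 ω'.1 ω'.2 / ((K + 2) * ρ ^ γ)) =
        (∑ i ∈ range (m ^ 2), ∑ j ∈ range (m ^ 2),
          (K * E i j + (m : ℝ) ^ 2 * (E i j - E (i + 1) (j + 1)))) /
          ((m : ℝ) ^ 4 * ((K + 2) * ρ ^ γ)) := by
      have e2 : ∀ ω : Cfg m, ∑ ω' : Cfg m, pc m ω * pc m ω' *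
          (G0 ω.1 ω.2 ω'.1 ω'.2 / ((K + 2) * ρ ^ γ)) =
          (fun i c : ℕ => ∑ j ∈ range (m ^ 2), ∑ c' ∈ range (m ^ j),
            G0 i c j c' / ((m : ℝ) ^ i * (m : ℝ) ^ j) /
              ((m : ℝ) ^ 4 * ((K + 2) * ρ ^ γ))) ω.1 ω.2 := by
        intro ω
        simp only
        rw [← sum_Cfg m (fun j c' => G0 ω.1 ω.2 j c' / ((m : ℝ) ^ (ω.1 : ℕ) * (m : ℝ) ^ j) /
              ((m : ℝ) ^ 4 * ((K + 2) * ρ ^ γ)))]
        refine sum_congr rfl fun ω' _ => ?_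
        unfold pc
        field_simp
      rw [sum_congr rfl fun ω _ => e2 ω, sum_Cfg m (fun i c : ℕ => ∑ j ∈ range (m ^ 2),
        ∑ c' ∈ range (m ^ j), G0 i c j c' / ((m : ℝ) ^ i * (m : ℝ) ^ j) /
              ((m : ℝ) ^ 4 * ((K + 2) * ρ ^ γ))), sum_div]
      refine sum_congr rfl fun i _ => ?_
      rw [sum_comm, sum_div]
      refine sum_congr rfl fun j _ => ?_
      simp only [← sum_div]
      congr 1
      simp only [hG0, hE, sum_add_distrib, sum_sub_distrib, ← mul_sum]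
      have e3 : ∑ c ∈ range (m ^ (i + 1)), ∑ c' ∈ range (m ^ (j + 1)),
          Y (i + 1) c (j + 1) c' ^ γ = ∑ c ∈ range (m ^ i), ∑ c' ∈ range (m ^ j),
            ∑ d ∈ range m, ∑ d' ∈ range m, Y (i + 1) (c * m + d) (j + 1) (c' * m + d') ^ γ := by
        rw [pow_succ, sum_range_mul']
        refine sum_congr rfl fun c _ => ?_
        rw [sum_comm]
        rw [pow_succ, sum_range_mul']
        refine sum_congr rfl fun c' _ => ?_
        rw [sum_comm]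
      rw [e3]
      field_simp
      ring
    rw [e1, div_le_one (by positivity)]
    simp only [sum_add_distrib, ← mul_sum]
    have a1 := telescope2 E (m ^ 2) (ρ ^ γ) hE0 hE1
    have a2 : ∑ i ∈ range (m ^ 2), ∑ j ∈ range (m ^ 2), E i j ≤
        ∑ i ∈ range (m ^ 2), ∑ j ∈ range (m ^ 2), ρ ^ γ :=
      sum_le_sum fun i hi => sum_le_sum fun j hj =>
        hE1 i (mem_range.1 hi).le j (mem_range.1 hj).le
    simp only [sum_const, card_range, nsmul_eq_mul] at a2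
    push_cast at a1 a2
    have a3 := mul_le_mul_of_nonneg_left a1 (sq_nonneg (m : ℝ))
    have a4 := mul_le_mul_of_nonneg_left a2 hK
    nlinarith
  · intro ω ω' d hd d' hd'
    have := hG _ ω.1.2 ω.2 _ ω'.1.2 ω'.2 d hd d' hd'
    refine this.trans (le_of_eq ?_)
    field_simp

/-- **Multiscale step for a family of blocks.** -/
theorem family_step {γ : ℝ} (h0 : 0 < γ) (h1 : γ < 1) :
    ∃ C : ℝ, 0 ≤ C ∧ ∀ m : ℕ, 0 < m → ∀ (B : Type) [Fintype B] (F : B → B → ℕ → ℕ → ℝ)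
      (wd : B → ℕ → ℕ) (y : B → B → ℝ), (∀ b b' x x', 0 ≤ F b b' x x') →
      (∀ b, ∀ i < m ^ 2, wd b i = m * wd b (i + 1)) → (∀ b b', 0 ≤ y b b') → (∀ b, y b b = 0) →
      (∀ b, ∑ b', y b b' ≤ 1) → (∀ b', ∑ b, y b b' ≤ 1) →
      ∃ (i c : B → ℕ) (z : B → B → ℝ), (∀ b, i b < m ^ 2) ∧ (∀ b, c b < m ^ i b) ∧
        (∀ b b', 0 ≤ z b b') ∧ (∀ b, ∑ b', y b b' * z b b' ≤ C) ∧
        ∀ b b', ∀ d < m, ∀ d' < m,
          Dn (F b b') (wd b (i b + 1)) (c b * m + d) (wd b' (i b' + 1)) (c b' * m + d') ^ γ ≤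
            z b b' * Dn (F b b') (wd b 0) 0 (wd b' 0) 0 ^ γ := by
  obtain ⟨C, hC, h⟩ := pair_step h0 h1
  refine ⟨C * 8, by positivity, ?_⟩
  intro m hm B _ F wd y hF hw hy hd hrow hcol
  classical
  choose G hG0 hG1 hG2 using fun b b' => h m hm (F b b') (wd b) (wd b') (hF b b') (hw b) (hw b')
  obtain ⟨σ, hσ⟩ := local_lemma (p := pc m) (fun ω => by unfold pc; positivity) (sum_pc hm)
    (fun b b' ω ω' => y b b' * G b b' ω ω') (fun b b' _ _ => mul_nonneg (hy _ _) (hG0 _ _ _ _))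
    (fun b _ _ => by rw [hd, zero_mul]) y (fun b b' => by
      have := mul_le_mul_of_nonneg_left (hG1 b b') (hy b b')
      rw [mul_one, mul_sum] at this
      refine le_trans (le_of_eq ?_) this
      refine sum_congr rfl fun _ _ => ?_
      rw [mul_sum]
      exact sum_congr rfl fun _ _ => by ring) hrow hcol
  refine ⟨fun b => (σ b).1, fun b => (σ b).2, fun b b' => C * G b b' (σ b) (σ b'),
    fun b => (σ b).1.2, fun b => (σ b).2.2, fun b b' => mul_nonneg hC (hG0 _ _ _ _), ?_,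
    fun b b' d hd d' hd' => hG2 b b' (σ b) (σ b') d hd d' hd'⟩
  intro b
  have := mul_le_mul_of_nonneg_left (hσ b).le hC
  rw [mul_sum] at this
  exact le_trans (le_of_eq (sum_congr rfl fun _ _ => by ring)) this

end Pool.Agent.P.MP_5faa0b_co
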