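import Pool.Agent.P.MP_5faa0b_co.Step

/-! Two splitting steps decrease the potential by a large factor. -/

namespace Pool.Agent.P.MP_5faa0b_co

open Finset

theorem pw_div {c v ex : ℝ} (hc : 1 ≤ c) (hv : 1 ≤ v) (h1 : ex ≤ 1) (a b : ℕ)
    (hab : (b : ℝ) ≤ a * ex) : (c / v ^ a) ^ ex ≤ c / v ^ b := by
  rw [Real.div_rpow (by positivity) (by positivity), ← Real.rpow_natCast, ← Real.rpow_natCast,
    ← Real.rpow_mul (by positivity)]
  exact div_le_div₀ (by positivity)
    ((Real.rpow_le_rpow_of_exponent_le hc h1).trans (Real.rpow_one _).le) (by positivity)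
    (Real.rpow_le_rpow_of_exponent_le hv hab)

theorem pw_mul {c v ex : ℝ} (hc : 1 ≤ c) (hv : 1 ≤ v) (h1 : ex ≤ 1) (a b : ℕ)
    (hab : a * ex ≤ (b : ℝ)) : (c * v ^ a) ^ ex ≤ c * v ^ b := by
  rw [Real.mul_rpow (by positivity) (by positivity), ← Real.rpow_natCast, ← Real.rpow_natCast,
    ← Real.rpow_mul (by positivity)]
  exact mul_le_mul ((Real.rpow_le_rpow_of_exponent_le hc h1).trans (Real.rpow_one _).le)
    (Real.rpow_le_rpow_of_exponent_le hv hab) (by positivity) (by positivity)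

theorem StepOut.bounds {m : ℕ} (hm : 0 < m) {C Θ : ℝ} (hC : 0 ≤ C) (hΘ : 0 < Θ) {B : Type}
    [Fintype B] {M : B → B → ℝ} (hM0 : ∀ b b', 0 ≤ M b b') (hrow : ∀ b, ∑ b', M b b' ≤ Θ)
    {cnt : B → ℕ} {M' : B × Fin m → B × Fin m → ℝ} (h : StepOut m C Θ M cnt M') :
    (∀ b d (L : Finset B) (A : B → Finset (Fin m)) (k h : ℝ), 0 < k → 0 < h →
      (∀ b' ∈ L, ((A b').card : ℝ) ≤ k) → (2 / cnt b ≤ h ∨ (∑ b' ∈ L, M b b') / Θ ≤ h) →
      ∑ b' ∈ L, ∑ d' ∈ A b', M' (b, d) (b', d') ≤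
        k ^ (1 / 4 : ℝ) * Θ * ((C + 1) * h ^ (49 / 200 : ℝ))) ∧
    (∀ b, ∑ d, ∑ q, M' (b, d) q ≤ (m : ℝ) ^ (1 / 4 : ℝ) * (m : ℝ) ^ (1 / 4 : ℝ) * Θ * (C + 1)) ∧
    (∀ q b', ∑ d', M' q (b', d') =
      ∑ d' ∈ univ.filter (fun d : Fin m => (d : ℕ) < cnt b'), M' q (b', d')) := by
  obtain ⟨z, x, hz0, hz1, hx0, hx1, hx2, hzero, hA⟩ := h
  have hy0 : ∀ b b', 0 ≤ M b b' / Θ := fun b b' => div_nonneg (hM0 _ _) hΘ.le
  have hx1' : ∀ b d b', x b d b' ≤ 1 := fun b d b' =>
    (single_le_sum (f := fun d => x b d b') (fun d _ => hx0 b d b') (mem_univ d)).trans (hx1 b b')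
  have hm' : (0 : ℝ) < m := by positivity
  refine ⟨?_, ?_, ?_⟩
  · intro b d L A k h hk hh hAk hor
    refine (sum_le_sum fun b' hb' => hA b d b' (A b') k hk (hAk b' hb')).trans ?_
    rw [← mul_sum]
    refine mul_le_mul_of_nonneg_left ?_ (by positivity)
    have := young_sum (α := 3 / 4) (θ := 151 / 200) (C := C) (by norm_num) (by norm_num)
      (by norm_num) hh L (fun b' => M b b' / Θ) (z b) (x b d) (hy0 b) (hz0 b) (hx0 b d) (hx1' b d)
      hC ((sum_le_sum_of_subset_of_nonneg (subset_univ L)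
        fun _ _ _ => mul_nonneg (hy0 _ _) (hz0 _ _)).trans (hz1 b)) (by
        rcases hor with h1 | h1
        · exact ((sum_le_sum_of_subset_of_nonneg (subset_univ L)
            fun _ _ _ => mul_nonneg (hy0 _ _) (hx0 _ _ _)).trans (hx2 b d)).trans h1
        · rw [sum_div] at h1
          exact (sum_le_sum fun b' _ => mul_le_of_le_one_right (hy0 _ _) (hx1' _ _ _)).trans h1)
    rwa [show (1 - 151 / 200 : ℝ) = 49 / 200 by norm_num] at this
  · intro b
    have h1 : ∀ d, ∑ q, M' (b, d) q ≤ ∑ b', (m : ℝ) ^ (1 / 4 : ℝ) * Θ *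
        (M b b' / Θ * (z b b' ^ (151 / 200 : ℝ) * x b d b' ^ (3 / 4 : ℝ))) := by
      intro d
      rw [Fintype.sum_prod_type]
      exact sum_le_sum fun b' _ => hA b d b' univ m hm' (by simp)
    refine (sum_le_sum fun d _ => h1 d).trans ?_
    rw [sum_comm]
    have h2 : ∀ b', ∑ d, (m : ℝ) ^ (1 / 4 : ℝ) * Θ *
        (M b b' / Θ * (z b b' ^ (151 / 200 : ℝ) * x b d b' ^ (3 / 4 : ℝ))) ≤
        (m : ℝ) ^ (1 / 4 : ℝ) * (m : ℝ) ^ (1 / 4 : ℝ) * Θ *
        (M b b' / Θ * (z b b' ^ (151 / 200 : ℝ) * (1 : ℝ) ^ (3 / 4 : ℝ))) := by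
      intro b'
      simp only [← mul_sum]
      have h3 := sum_rpow_le' (γ := 3 / 4) (by norm_num) (by norm_num) univ (fun d => x b d b')
        (fun d _ => hx0 b d b') (k := m) (by simp) hm' zero_le_one (hx1 b b')
      rw [show (1 - 3 / 4 : ℝ) = 1 / 4 by norm_num] at h3
      have h4 := mul_le_mul_of_nonneg_left h3 (mul_nonneg (mul_nonneg
        (show 0 ≤ (m : ℝ) ^ (1 / 4 : ℝ) * Θ by positivity) (hy0 b b'))
        (Real.rpow_nonneg (hz0 b b') (151 / 200)))
      refine le_trans (le_of_eq ?_) (h4.trans (le_of_eq ?_)) <;> ring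
    refine (sum_le_sum fun b' _ => h2 b').trans ?_
    rw [← mul_sum]
    refine mul_le_mul_of_nonneg_left ?_ (by positivity)
    have := young_sum (α := 3 / 4) (θ := 151 / 200) (C := C) (by norm_num) (by norm_num)
      (by norm_num) one_pos univ (fun b' => M b b' / Θ) (z b) (fun _ => 1) (hy0 b) (hz0 b)
      (fun _ => zero_le_one) (fun _ => le_rfl) hC (hz1 b) (by
        simp only [mul_one]
        rw [← sum_div, div_le_one hΘ]
        exact hrow b)
    rwa [Real.one_rpow (1 - 151 / 200), mul_one (C + 1)] at this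
  · intro q b'
    refine (sum_filter_of_ne fun d' _ hne => ?_).symm
    by_contra hlt
    exact hne (hzero q b' d' (not_lt.1 hlt))

theorem card_lt_le (m k : ℕ) : ((univ.filter fun d : Fin m => (d : ℕ) < k).card : ℝ) ≤ k := by
  have : (univ.filter fun d : Fin m => (d : ℕ) < k).card ≤ (range k).card :=
    card_le_card_of_injOn (fun d => (d : ℕ)) (fun d hd => by simpa using hd)
      fun _ _ _ _ h => Fin.ext h
  rw [card_range] at this
  exact_mod_cast this

/-- there is a state with `T` steps to go whose potential is at most `Θ` -/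
def Good {n : ℕ} (red : ℕ → ℕ → Prop) (N t m : ℕ) (p : Fin n → Fin n) (T : ℕ) (Θ : ℝ) : Prop :=
  ∃ (B : Type) (_ : Fintype B) (M : B → B → ℝ), St red N t m p T B M ∧ ∀ b, ∑ b', M b b' ≤ Θ

theorem double_step : ∃ m : ℕ, 0 < m ∧ ∀ {n : ℕ} (red : ℕ → ℕ → Prop) (N t : ℕ)
    (p : Fin n → Fin n), (∀ x y, red x y → red y x) → Function.Involutive p →
    ∀ (T : ℕ) (Θ : ℝ), 1 / 32 ≤ Θ → Good red N t m p (T + 2) Θ →
      Good red N t m p T (Θ / 1024) := by
  obtain ⟨C, hC, hstep⟩ := step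
  obtain ⟨v, hv⟩ := exists_nat_ge (6144 * (C + 1) ^ 3)
  set c := C + 1 with hc
  have hc1 : 1 ≤ c := by linarith
  have hc3 : 1 ≤ c ^ 3 := one_le_pow₀ hc1
  have hv1 : (1 : ℝ) ≤ v := by linarith
  have hv0 : 0 < v := by exact_mod_cast (show (0 : ℝ) < v by linarith)
  refine ⟨v ^ 400, by positivity, ?_⟩
  intro n red N t p hs hp T Θ hΘ ⟨B, _, M, hSt, hrow⟩
  classical
  have hm : 0 < v ^ 400 := by positivity
  have hΘ0 : 0 < Θ := by linarith
  obtain ⟨M1, hSt1, hO1⟩ := hstep red N t (v ^ 400) p hm hs hp (T + 1) B M Θ (fun _ => v ^ 400)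
    hSt hΘ hrow (fun _ => hm) (fun _ => le_rfl)
  obtain ⟨a1, a2, -⟩ := hO1.bounds hm hC hΘ0 hSt.nonneg hrow
  rw [← hc] at a1 a2
  have hM1 := hSt1.nonneg
  have p1 : ((v : ℝ) ^ 400) ^ (1 / 4 : ℝ) ≤ (v : ℝ) ^ 100 := by
    simpa using pw_mul le_rfl hv1 (ex := 1 / 4) (by norm_num) 400 100 (by norm_num)
  have p2 : (2 / (v : ℝ) ^ 400) ^ (49 / 200 : ℝ) ≤ 2 / (v : ℝ) ^ 98 :=
    pw_div one_le_two hv1 (by norm_num) 400 98 (by norm_num)
  set ΘA := 2 * c * (v : ℝ) ^ 2 * Θ with hΘA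
  have hΘA1 : Θ ≤ ΘA := le_mul_of_one_le_left hΘ0.le
    (one_le_mul_of_one_le_of_one_le (by linarith) (one_le_pow₀ hv1))
  have hΘA0 : 0 < ΘA := by linarith
  have row1 : ∀ q, ∑ q', M1 q q' ≤ ΘA := by
    rintro ⟨b, d⟩
    rw [Fintype.sum_prod_type]
    refine (a1 b d univ (fun _ => univ) ((v : ℝ) ^ 400) (2 / (v : ℝ) ^ 400) (by positivity)
      (by positivity) (by simp) (Or.inl (by simp))).trans ?_
    refine (mul_le_mul (mul_le_mul_of_nonneg_right p1 hΘ0.le)
      (mul_le_mul_of_nonneg_left p2 (by positivity)) (by positivity) (by positivity)).trans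
      (le_of_eq ?_)
    rw [hΘA]
    field_simp
  set large : B × Fin (v ^ 400) → Prop := fun q => Θ / (v : ℝ) ^ 48 < ∑ q', M1 q q' with hlarge
  have hκ : ∀ b, ((univ.filter fun d => large (b, d)).card : ℝ) ≤ c * (v : ℝ) ^ 248 := by
    intro b
    have h1 := card_nsmul_le_sum (univ.filter fun d => large (b, d))
      (fun d => ∑ q', M1 (b, d) q') (Θ / (v : ℝ) ^ 48) fun d hd => (mem_filter.1 hd).2.le
    have h2 := (sum_le_sum_of_subset_of_nonneg (subset_univ (univ.filter fun d => large (b, d)))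
      fun d _ _ => sum_nonneg fun q' _ => hM1 (b, d) q').trans (a2 b)
    push_cast at h2
    have h3 := mul_le_mul_of_nonneg_right (mul_le_mul_of_nonneg_right
      (mul_le_mul p1 p1 (by positivity) (by positivity)) hΘ0.le) (show 0 ≤ c by positivity)
    have h4 := (h1.trans h2).trans h3
    rw [nsmul_eq_mul, ← mul_div_assoc, div_le_iff₀ (by positivity)] at h4
    refine le_of_mul_le_mul_right (h4.trans (le_of_eq ?_)) hΘ0
    ring
  have hΛ : ∀ q, (∑ q' with large q', M1 q q') / ΘA ≤ c / (v : ℝ) ^ 38 := by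
    rintro ⟨b, d⟩
    have e : ∑ q' with large q', M1 (b, d) q' =
        ∑ b', ∑ d' with large (b', d'), M1 (b, d) (b', d') := by
      rw [sum_filter, Fintype.sum_prod_type]
      simp only [sum_filter]
    rw [e, div_le_iff₀ hΘA0]
    refine (a1 b d univ (fun b' => univ.filter fun d' => large (b', d')) (c * (v : ℝ) ^ 248)
      (2 / (v : ℝ) ^ 400) (by positivity) (by positivity) (fun b' _ => hκ b')
      (Or.inl (by simp))).trans ?_
    have p3 := pw_mul hc1 hv1 (ex := 1 / 4) (by norm_num) 248 62 (by norm_num)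
    refine (mul_le_mul (mul_le_mul_of_nonneg_right p3 hΘ0.le)
      (mul_le_mul_of_nonneg_left p2 (by positivity)) (by positivity) (by positivity)).trans
      (le_of_eq ?_)
    rw [hΘA]
    field_simp
  obtain ⟨M2, hSt2, hO2⟩ := hstep red N t (v ^ 400) p hm hs hp T _ M1 ΘA
    (fun q => if large q then v ^ 16 else 1) hSt1 (by linarith) row1
    (fun q => by split_ifs <;> positivity) (fun q => by
      split_ifs
      · exact Nat.pow_le_pow_right hv0 (by norm_num)
      · exact hm)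
  obtain ⟨b1, -, b3⟩ := hO2.bounds hm hC hΘA0 hM1 row1
  rw [← hc] at b1
  refine ⟨_, inferInstance, M2, hSt2, ?_⟩
  rintro ⟨q, j⟩
  rw [Fintype.sum_prod_type]
  simp only [b3]
  have p4 : ((v : ℝ) ^ 16) ^ (1 / 4 : ℝ) ≤ (v : ℝ) ^ 4 := by
    simpa using pw_mul le_rfl hv1 (ex := 1 / 4) (by norm_num) 16 4 (by norm_num)
  have hcard : ∀ q' : B × Fin (v ^ 400), ((univ.filter fun d : Fin (v ^ 400) =>
      (d : ℕ) < if large q' then v ^ 16 else 1).card : ℝ) ≤ (v : ℝ) ^ 16 := by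
    intro q'
    refine (card_lt_le _ _).trans ?_
    split_ifs
    · simp
    · simpa using one_le_pow₀ hv1
  have hfin : 6 * c ^ 3 * Θ / v ≤ Θ / 1024 := by
    rw [div_le_div_iff₀ (by positivity) (by norm_num)]
    nlinarith
  refine le_trans ?_ hfin
  have hc23 : c ^ 2 ≤ c ^ 3 := pow_le_pow_right₀ hc1 (by norm_num)
  by_cases hq : large q
  · rw [← sum_filter_add_sum_filter_not univ large]
    have s1 := b1 q j (univ.filter large) _ _ (c / (v : ℝ) ^ 38) (by positivity) (by positivity)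
      (fun q' _ => hcard q') (Or.inr (hΛ q))
    have s2 := b1 q j (univ.filter fun q' => ¬ large q') (fun q' => univ.filter
      fun d : Fin (v ^ 400) => (d : ℕ) < if large q' then v ^ 16 else 1) 1 (2 / (v : ℝ) ^ 16)
      one_pos (by positivity) (fun q' hq' => by
        refine (card_lt_le _ _).trans ?_
        rw [if_neg (mem_filter.1 hq').2]
        simp) (Or.inl (by rw [if_pos hq]; simp))
    have p5 := pw_div hc1 hv1 (ex := 49 / 200) (by norm_num) 38 7 (by norm_num)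
    have p6 := pw_div one_le_two hv1 (ex := 49 / 200) (by norm_num) 16 3 (by norm_num)
    have s3 := s1.trans (mul_le_mul (mul_le_mul_of_nonneg_right p4 hΘA0.le)
      (mul_le_mul_of_nonneg_left p5 (by positivity)) (by positivity) (by positivity))
    rw [Real.one_rpow, one_mul] at s2
    have s4 := s2.trans (mul_le_mul_of_nonneg_left
      (mul_le_mul_of_nonneg_left p6 (by positivity)) hΘA0.le)
    refine (add_le_add s3 s4).trans ?_
    have e : (v : ℝ) ^ 4 * ΘA * (c * (c / (v : ℝ) ^ 7)) + ΘA * (c * (2 / (v : ℝ) ^ 3)) =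
        (2 * c ^ 3 + 4 * c ^ 2) * Θ / v := by
      rw [hΘA]
      field_simp
      ring
    rw [e]
    gcongr
    linarith
  · have s1 := b1 q j univ _ _ (1 / (v : ℝ) ^ 48) (by positivity) (by positivity)
      (fun q' _ => hcard q') (Or.inr (by
        simp only [hlarge, not_lt] at hq
        rw [div_le_iff₀ hΘA0]
        refine hq.trans ?_
        rw [one_div_mul_eq_div]
        gcongr))
    have p5 := pw_div le_rfl hv1 (ex := 49 / 200) (by norm_num) 48 7 (by norm_num)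
    refine (s1.trans (mul_le_mul (mul_le_mul_of_nonneg_right p4 hΘA0.le)
      (mul_le_mul_of_nonneg_left p5 (by positivity)) (by positivity) (by positivity))).trans ?_
    have e : (v : ℝ) ^ 4 * ΘA * (c * (1 / (v : ℝ) ^ 7)) = (2 * c ^ 2) * Θ / v := by
      rw [hΘA]
      field_simp
    rw [e]
    gcongr
    linarith

theorem iterate_step : ∃ m : ℕ, 0 < m ∧ ∀ {n : ℕ} (red : ℕ → ℕ → Prop) (N t : ℕ)
    (p : Fin n → Fin n), (∀ x y, red x y → red y x) → Function.Involutive p →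
    ∀ J : ℕ, Good red N t m p (2 * J) (1024 ^ J / 32) → Good red N t m p 0 (1 / 32) := by
  obtain ⟨m, hm, h⟩ := double_step
  refine ⟨m, hm, ?_⟩
  intro n red N t p hs hp J
  induction J with
  | zero => simp
  | succ J ih =>
    intro hG
    have := h red N t p hs hp (2 * J) _ (by
      have : (1 : ℝ) ≤ 1024 ^ (J + 1) := one_le_pow₀ (by norm_num)
      linarith) hG
    refine ih ?_
    rwa [show (1024 : ℝ) ^ (J + 1) / 32 / 1024 = 1024 ^ J / 32 by ring] at this

end Pool.Agent.P.MP_5faa0b_co
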