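import Pool.Agent.P.MP_5faa0b_co.Double

/-! From a state of small potential to a blue ordered copy of the matching. -/

namespace Pool.Agent.P.MP_5faa0b_co

open Finset

/-- an increasing embedding in which no matching edge is red -/
def Emb {n : ℕ} (red : ℕ → ℕ → Prop) (N : ℕ) (p : Fin n → Fin n) : Prop :=
  ∃ f : Fin n → ℕ, StrictMono f ∧ (∀ i, f i < N) ∧ ∀ i, ¬ red (f i) (f (p i))

theorem select {n : ℕ} {red : ℕ → ℕ → Prop} {N : ℕ} {p : Fin n → Fin n}
    (hs : ∀ x y, red x y → red y x) (hi : ∀ x, ¬ red x x) (hp : Function.Involutive p)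
    (Sl : Fin n → Set ℕ) (hord : ∀ i j, i < j → ∀ x ∈ Sl i, ∀ y ∈ Sl j, x < y)
    (hlt : ∀ i, ∀ x ∈ Sl i, x < N) (hex : ∀ i, ∃ x ∈ Sl i, ∃ y ∈ Sl (p i), ¬ red x y) :
    Emb red N p := by
  choose X hX Y hY hXY using hex
  have hf : ∀ i, (if i ≤ p i then X i else Y (p i)) ∈ Sl i := by
    intro i
    split_ifs
    · exact hX i
    · have := hY (p i)
      rwa [hp i] at this
  refine ⟨fun i => if i ≤ p i then X i else Y (p i), fun i j hij => hord i j hij _ (hf i) _ (hf j),
    fun i => hlt i _ (hf i), fun i => ?_⟩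
  simp only [hp i]
  rcases lt_trichotomy i (p i) with h | h | h
  · rw [if_pos h.le, if_neg (not_le.2 h)]
    exact hXY i
  · rw [← h]
    exact hi _
  · rw [if_neg (not_le.2 h), if_pos h.le]
    exact fun h' => hXY (p i) (hs _ _ h')

theorem sum_shift_le {t k : ℕ} (hk : k < t) (f : ℕ → ℝ) (hf : ∀ c, 0 ≤ f c) :
    ∑ σ : Fin t, f (σ + k) ≤ ∑ c ∈ range (2 * t), f c := by
  rw [Fin.sum_univ_eq_sum_range (fun σ => f (σ + k)),
    ← sum_image (s := range t) (g := fun σ => σ + k) (fun _ _ _ _ h => by simpa using h)]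
  refine sum_le_sum_of_subset_of_nonneg (fun c hc => ?_) fun _ _ _ => hf _
  simp only [mem_image, mem_range] at hc ⊢
  omega

theorem finish {n : ℕ} {red : ℕ → ℕ → Prop} {N t m : ℕ} {p : Fin n → Fin n} (ht : 0 < t)
    (hs : ∀ x y, red x y → red y x) (hi : ∀ x, ¬ red x x) (hp : Function.Involutive p)
    (h : Good red N t m p 0 (1 / 32)) : Emb red N p := by
  classical
  obtain ⟨B, _, M, ⟨β, e, g, hI, hM⟩, hrow⟩ := h
  have hW : ∀ b, Wd m t 0 (g b) = 2 * t * g b := fun b => by simp [Wd]
  set D := De red e (fun b => Wd m t 0 (g b)) with hD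
  have hD0 : ∀ b b', 0 ≤ D b b' := De_nonneg _ _ _
  have ht' : (0 : ℝ) < t := by positivity
  set bad : B → B → ℕ → ℕ → Prop := fun b b' c c' =>
    ∀ x < g b, ∀ y < g b', red (e b (c * g b + x)) (e b' (c' * g b' + y)) with hbad
  have hbad1 : ∀ b b' c c', (if bad b b' c c' then (1 : ℝ) else 0) ≤
      Dn (fun x y => ind red (e b x) (e b' y)) (g b) c (g b') c' := by
    intro b b' c c'
    split_ifs with h
    · rw [Dn_eq, sum_congr rfl (g := fun _ => (g b' : ℝ)) fun x hx => by
        rw [sum_congr rfl (g := fun _ => (1 : ℝ)) fun y hy => by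
          unfold ind
          rw [if_pos (h x (mem_range.1 hx) y (mem_range.1 hy))]]
        simp]
      have := hI.gpos b
      have := hI.gpos b'
      rw [sum_const, card_range, nsmul_eq_mul, div_self (by positivity)]
    · exact Dn_nonneg (fun _ _ => ind_nonneg _ _ _) _ _ _ _
  have hrow' : ∀ b, ∑ b', 32 * ((lines t p β b b').card * D b b') ≤ 1 := by
    intro b
    have h1 : ∀ b', (lines t p β b b').card * D b b' ≤ M b b' := by
      intro b'
      have h2 : M b b' ≤ 1 / 32 := (single_le_sum (f := fun b' => M b b') (fun b' _ => by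
        rw [hM]
        exact Real.rpow_nonneg (mul_nonneg (Nat.cast_nonneg _) (hD0 _ _)) _) (mem_univ b')).trans
        (hrow b)
      rw [hM] at h2 ⊢
      have h3 : 0 ≤ (lines t p β b b').card * D b b' := mul_nonneg (Nat.cast_nonneg _) (hD0 _ _)
      generalize (lines t p β b b').card * D b b' = a at h2 h3 ⊢
      rcases le_total a 1 with h4 | h4
      · exact (Real.rpow_one a).symm.le.trans
          (Real.rpow_le_rpow_of_exponent_ge' h3 h4 (by norm_num) (by norm_num))
      · have := Real.one_le_rpow h4 (z := 3 / 4) (by norm_num)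
        linarith
    rw [← mul_sum]
    have := (sum_le_sum fun b' _ => h1 b').trans (hrow b)
    linarith
  obtain ⟨σ, hσ⟩ := local_lemma (Ω := Fin t) (p := fun _ => 1 / (t : ℝ)) (fun _ => by positivity)
    (by simp; field_simp)
    (fun b b' a a' => 8 * ∑ i ∈ lines t p β b b',
      if bad b b' (a + i % t) (a' + p i % t) then (1 : ℝ) else 0)
    (fun _ _ _ _ => mul_nonneg (by norm_num) (sum_nonneg fun _ _ => by split_ifs <;> norm_num))
    (fun b _ _ => by rw [hI.lines_diag]; simp)
    (fun b b' => 32 * ((lines t p β b b').card * D b b')) (by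
      intro b b'
      have h1 : ∀ i : Fin n, ∑ a : Fin t, ∑ a' : Fin t,
          (if bad b b' (a + i % t) (a' + p i % t) then (1 : ℝ) else 0) ≤ 4 * t ^ 2 * D b b' := by
        intro i
        refine (sum_le_sum fun a _ => sum_le_sum fun a' _ => hbad1 _ _ _ _).trans ?_
        refine (sum_le_sum fun (a : Fin t) _ => sum_shift_le (Nat.mod_lt _ ht)
          (fun c' => Dn (fun x y => ind red (e b x) (e b' y)) (g b) (a + i % t) (g b') c')
          fun _ => Dn_nonneg (fun _ _ => ind_nonneg _ _ _) _ _ _ _).trans ?_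
        refine (sum_shift_le (Nat.mod_lt _ ht) (fun c => ∑ c' ∈ range (2 * t),
          Dn (fun x y => ind red (e b x) (e b' y)) (g b) c (g b') c')
          fun _ => sum_nonneg fun _ _ => Dn_nonneg (fun _ _ => ind_nonneg _ _ _) _ _ _ _).trans ?_
        rw [Dn_split0, hD]
        unfold De
        simp only [hW]
        push_cast
        exact le_of_eq (by ring)
      have h2 : ∑ a : Fin t, ∑ a' : Fin t, 1 / (t : ℝ) * (1 / (t : ℝ)) *
          (8 * ∑ i ∈ lines t p β b b',
            if bad b b' (a + i % t) (a' + p i % t) then (1 : ℝ) else 0) =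
          8 / (t : ℝ) ^ 2 * ∑ i ∈ lines t p β b b', ∑ a : Fin t, ∑ a' : Fin t,
            if bad b b' (a + i % t) (a' + p i % t) then (1 : ℝ) else 0 := by
        rw [sum_comm (s := lines t p β b b'), mul_sum]
        refine sum_congr rfl fun a _ => ?_
        rw [sum_comm (s := lines t p β b b'), mul_sum]
        exact sum_congr rfl fun a' _ => by ring
      rw [h2]
      refine (mul_le_mul_of_nonneg_left (sum_le_sum fun i _ => h1 i) (by positivity)).trans
        (le_of_eq ?_)
      rw [sum_const, nsmul_eq_mul]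
      field_simp
      ring) hrow' (fun b => by
        refine le_trans (le_of_eq (sum_congr rfl fun b' _ => ?_)) (hrow' b)
        rw [card_lines_symm t hp, hD, De_symm hs])
  have hk : ∀ i : Fin n, (σ (β i) : ℕ) + i % t < 2 * t := fun i => by
    have := (σ (β i)).2
    have := Nat.mod_lt i ht
    omega
  refine select hs hi hp (fun i => {v | ∃ x < g (β i), v = e (β i) ((σ (β i) + i % t) * g (β i) + x)})
    ?_ ?_ ?_
  · rintro i j hij _ ⟨x, hx, rfl⟩ _ ⟨y, hy, rfl⟩
    by_cases hβ : β i = β j
    · have h1 := hI.top i j hβ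
      have h2 : (i : ℕ) % t < j % t := by
        have h3 := Nat.div_add_mod (i : ℕ) t
        have h4 := Nat.div_add_mod (j : ℕ) t
        have h5 : (i : ℕ) < j := hij
        rw [h1] at h3
        omega
      rw [← hβ]
      exact hI.mono _ ((chunk_lt (by omega) hx).trans_le (Nat.le_add_right _ _))
    · exact hI.ord i j hij hβ _ (by rw [hW]; exact chunk_lt (hk i) hx) _
        (by rw [hW]; exact chunk_lt (hk j) hy)
  · rintro i _ ⟨x, hx, rfl⟩
    exact hI.lt i _ (by rw [hW]; exact chunk_lt (hk i) hx)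
  · intro i
    by_cases hc : (p i : ℕ) / t = (i : ℕ) / t
    · have hle : ∀ i : Fin n, ((σ (β i) : ℕ) + i % t) * g (β i) + g (β i) ≤ Wd m t 0 (g (β i)) := by
        intro i
        rw [hW, ← Nat.succ_mul]
        exact Nat.mul_le_mul_right _ (hk i)
      obtain ⟨x, hx, y, hy, hxy⟩ := hI.inner i (p i) hc.symm _ _ (hle i) (hle (p i))
      exact ⟨_, ⟨x, hx, rfl⟩, _, ⟨y, hy, rfl⟩, hxy⟩
    · have h1 := hσ (β i)
      have h2 := single_le_sum (f := fun b' => 8 * ∑ j ∈ lines t p β (β i) b',
          if bad (β i) b' (σ (β i) + j % t) (σ b' + p j % t) then (1 : ℝ) else 0)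
        (fun _ _ => mul_nonneg (by norm_num) (sum_nonneg fun _ _ => by split_ifs <;> norm_num))
        (mem_univ (β (p i)))
      have h3 := single_le_sum (f := fun j : Fin n =>
          if bad (β i) (β (p i)) (σ (β i) + j % t) (σ (β (p i)) + p j % t) then (1 : ℝ) else 0)
        (fun _ _ => by split_ifs <;> norm_num)
        (mem_lines.2 ⟨rfl, rfl, hc⟩ : i ∈ lines t p β (β i) (β (p i)))
      have h4 : ¬ bad (β i) (β (p i)) (σ (β i) + i % t) (σ (β (p i)) + p i % t) := by
        intro h
        rw [if_pos h] at h3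
        linarith
      simp only [hbad] at h4
      push Not at h4
      obtain ⟨x, hx, y, hy, hxy⟩ := h4
      exact ⟨_, ⟨x, hx, rfl⟩, _, ⟨y, hy, rfl⟩, hxy⟩

end Pool.Agent.P.MP_5faa0b_co
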