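import Mathlib

/-! A local lemma for pair costs: independent choices can be made so that the total cost at every
vertex is at most a constant times the bound on the expected costs. -/

namespace Pool.Agent.P.MP_5faa0b_co

open Finset

section
variable {B Ω : Type} [Fintype B] [DecidableEq B] [Fintype Ω]

/-- expectation for the product weights -/
def Ex (p : Ω → ℝ) (H : (B → Ω) → ℝ) : ℝ := ∑ σ : B → Ω, (∏ b, p (σ b)) * H σ

theorem Ex_mono {p : Ω → ℝ} (hp : ∀ a, 0 ≤ p a) {H H' : (B → Ω) → ℝ} (h : ∀ σ, H σ ≤ H' σ) :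
    Ex p H ≤ Ex p H' :=
  sum_le_sum fun σ _ => mul_le_mul_of_nonneg_left (h σ) (prod_nonneg fun _ _ => hp _)

theorem Ex_one {p : Ω → ℝ} (h1 : ∑ a, p a = 1) : Ex p (fun _ : B → Ω => 1) = 1 := by
  simp only [Ex, mul_one]
  rw [← Fintype.piFinset_univ, ← prod_univ_sum (fun _ => univ) (fun _ a => p a)]
  simp [h1]

omit [Fintype Ω] in
theorem prod_update (p : Ω → ℝ) (σ : B → Ω) (u : B) (a : Ω) :
    ∏ b, p (Function.update σ u a b) = p a * ∏ b ∈ univ.erase u, p (σ b) := by
  rw [← mul_prod_erase univ _ (mem_univ u), Function.update_self]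
  congr 1
  exact prod_congr rfl fun b hb => by rw [Function.update_of_ne (ne_of_mem_erase hb)]

theorem Ex_resample {p : Ω → ℝ} (h1 : ∑ a, p a = 1) (H : (B → Ω) → ℝ) (u : B) :
    Ex p H = Ex p fun σ => ∑ a, p a * H (Function.update σ u a) := by
  have e1 : Ex p H = ∑ q : (B → Ω) × Ω, (∏ b, p (q.1 b)) * H q.1 * p q.2 := by
    rw [Fintype.sum_prod_type]
    simp only [Ex, ← mul_sum, h1, mul_one]
  have e2 : (Ex p fun σ => ∑ a, p a * H (Function.update σ u a)) =
      ∑ q : (B → Ω) × Ω, (∏ b, p (q.1 b)) * (p q.2 * H (Function.update q.1 u q.2)) := by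
    rw [Fintype.sum_prod_type]
    simp only [Ex, mul_sum]
  rw [e1, e2]
  have hinv : Function.Involutive
      fun q : (B → Ω) × Ω => (Function.update q.1 u q.2, q.1 u) := by
    rintro ⟨σ, a⟩
    simp
  refine (Fintype.sum_bijective _ hinv.bijective _ _ ?_).symm
  rintro ⟨σ, a⟩
  simp only
  rw [prod_update, ← mul_prod_erase univ _ (mem_univ u)]
  ring

theorem Ex_congr {p : Ω → ℝ} {H H' : (B → Ω) → ℝ} (h : ∀ σ, H σ = H' σ) : Ex p H = Ex p H' := by
  rw [show H = H' from funext h]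

theorem Ex_const_mul (p : Ω → ℝ) (c : ℝ) (H : (B → Ω) → ℝ) :
    (Ex p fun σ => c * H σ) = c * Ex p H := by
  simp only [Ex, mul_sum]
  exact sum_congr rfl fun σ _ => by ring

theorem Ex_sum {ι : Type} (p : Ω → ℝ) (s : Finset ι) (H : ι → (B → Ω) → ℝ) :
    (Ex p fun σ => ∑ i ∈ s, H i σ) = ∑ i ∈ s, Ex p (H i) := by
  simp only [Ex, mul_sum]
  exact sum_comm

theorem Ex_sub (p : Ω → ℝ) (H H' : (B → Ω) → ℝ) :
    (Ex p fun σ => H σ - H' σ) = Ex p H - Ex p H' := by
  simp only [Ex, mul_sub, sum_sub_distrib]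

theorem Ex_factor1 {p : Ω → ℝ} (h1 : ∑ a, p a = 1) (F : (B → Ω) → ℝ) {u : B}
    (hu : ∀ σ a, F (Function.update σ u a) = F σ) (g : Ω → ℝ) :
    (Ex p fun σ => g (σ u) * F σ) = (∑ a, p a * g a) * Ex p F := by
  rw [Ex_resample h1 _ u, ← Ex_const_mul]
  refine Ex_congr fun σ => ?_
  simp only [Function.update_self, hu, sum_mul, mul_assoc]

theorem Ex_factor {p : Ω → ℝ} (h1 : ∑ a, p a = 1) (F : (B → Ω) → ℝ) {u v : B} (huv : u ≠ v)
    (hu : ∀ σ a, F (Function.update σ u a) = F σ) (hv : ∀ σ a, F (Function.update σ v a) = F σ)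
    (g : Ω → Ω → ℝ) :
    (Ex p fun σ => g (σ u) (σ v) * F σ) = (∑ a, ∑ a', p a * p a' * g a a') * Ex p F := by
  rw [Ex_resample h1 _ u]
  have e : (Ex p fun σ => ∑ a, p a * (g (Function.update σ u a u) (Function.update σ u a v) *
      F (Function.update σ u a))) = Ex p fun σ => (∑ a, p a * g a (σ v)) * F σ := by
    refine Ex_congr fun σ => ?_
    simp only [Function.update_self, hu, Function.update_of_ne huv.symm, sum_mul, mul_assoc]
  rw [e, Ex_factor1 h1 F hv (fun a' => ∑ a, p a * g a a')]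
  congr 1
  rw [sum_comm]
  refine sum_congr rfl fun a _ => ?_
  rw [mul_sum]
  exact sum_congr rfl fun a' _ => by ring

end

theorem prod_sub_prod_le {ι : Type} [DecidableEq ι] (s : Finset ι) (a b : ι → ℝ)
    (hb : ∀ i, 0 ≤ b i) (hab : ∀ i, b i ≤ a i) :
    ∏ i ∈ s, a i - ∏ i ∈ s, b i ≤ ∑ i ∈ s, (a i - b i) * ∏ j ∈ s.erase i, a j := by
  induction s using Finset.induction_on with
  | empty => simp
  | insert k s hk ih =>
    rw [prod_insert hk, prod_insert hk, sum_insert hk, erase_insert hk]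
    have e : ∑ i ∈ s, (a i - b i) * ∏ j ∈ (insert k s).erase i, a j =
        a k * ∑ i ∈ s, (a i - b i) * ∏ j ∈ s.erase i, a j := by
      rw [mul_sum]
      refine sum_congr rfl fun i hi => ?_
      have hik : k ≠ i := fun h => hk (h ▸ hi)
      rw [erase_insert_of_ne hik, prod_insert (fun h => hk (mem_of_mem_erase h))]
      ring
    rw [e]
    have h1 : ∏ i ∈ s, b i ≤ ∏ i ∈ s, a i := prod_le_prod (fun i _ => hb i) fun i _ => hab i
    have h2 := mul_le_mul_of_nonneg_left ih ((hb k).trans (hab k))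
    have h3 := mul_le_mul_of_nonneg_left h1 (sub_nonneg.2 (hab k))
    nlinarith

/-- the truncated linear weight -/
noncomputable def psi (s : ℝ) : ℝ := max 0 (1 - s / 8)

theorem psi_nonneg (s : ℝ) : 0 ≤ psi s := le_max_left _ _

theorem psi_anti {s t : ℝ} (h : s ≤ t) : psi t ≤ psi s :=
  max_le_max le_rfl (by linarith)

theorem psi_le_one {s : ℝ} (h : 0 ≤ s) : psi s ≤ 1 := max_le zero_le_one (by linarith)

theorem psi_sub {s d : ℝ} (h : 0 ≤ d) : psi s - psi (s + d) ≤ d / 8 := by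
  unfold psi
  rcases le_total 0 (1 - s / 8) with h1 | h1
  · rw [max_eq_right h1]
    have := le_max_right 0 (1 - (s + d) / 8)
    linarith
  · rw [max_eq_left h1]
    have := le_max_left 0 (1 - (s + d) / 8)
    linarith [h]

theorem one_sub_psi {s : ℝ} (_h : 0 ≤ s) : 1 - psi s ≤ s / 8 := by
  have := le_max_right 0 (1 - s / 8)
  unfold psi
  linarith

section
variable {B Ω : Type} [Fintype B] [DecidableEq B] [Fintype Ω]

/-- weight of a configuration on the vertex set `W` -/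
noncomputable def FW (g : B → B → Ω → Ω → ℝ) (W : Finset B) (σ : B → Ω) : ℝ :=
  ∏ u ∈ W, psi (∑ v ∈ W, g u v (σ u) (σ v))

omit [Fintype B] [Fintype Ω] in
theorem FW_update (g : B → B → Ω → Ω → ℝ) {W : Finset B} {u : B} (hu : u ∉ W) (σ : B → Ω)
    (a : Ω) : FW g W (Function.update σ u a) = FW g W σ := by
  unfold FW
  refine prod_congr rfl fun x hx => ?_
  congr 1
  refine sum_congr rfl fun y hy => ?_
  rw [Function.update_of_ne (fun h : x = u => hu (h ▸ hx)),
    Function.update_of_ne (fun h : y = u => hu (h ▸ hy))]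

omit [Fintype B] [Fintype Ω] in
theorem FW_insert {g : B → B → Ω → Ω → ℝ} (h0 : ∀ u v a b, 0 ≤ g u v a b)
    (hd : ∀ u a b, g u u a b = 0) {W : Finset B} {v : B} (hv : v ∉ W) (σ : B → Ω) :
    FW g W σ - ∑ u ∈ W, ((g u v (σ u) (σ v) + g v u (σ v) (σ u)) / 8) * FW g (W.erase u) σ ≤
      FW g (insert v W) σ := by
  set a : B → ℝ := fun u => psi (∑ y ∈ W, g u y (σ u) (σ y)) with ha
  set b : B → ℝ := fun u => psi (∑ y ∈ W, g u y (σ u) (σ y) + g u v (σ u) (σ v)) with hb
  have e1 : FW g (insert v W) σ = a v * ∏ u ∈ W, b u := by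
    unfold FW
    rw [prod_insert hv, sum_insert hv, hd, zero_add]
    congr 1
    refine prod_congr rfl fun u _ => ?_
    rw [sum_insert hv, add_comm]
  have e2 : FW g W σ = ∏ u ∈ W, a u := rfl
  have hb0 : ∀ u, 0 ≤ b u := fun u => psi_nonneg _
  have ha0 : ∀ u, 0 ≤ a u := fun u => psi_nonneg _
  have ha1 : ∀ u, a u ≤ 1 := fun u => psi_le_one (sum_nonneg fun _ _ => h0 _ _ _ _)
  have hab : ∀ u, b u ≤ a u := fun u => psi_anti (le_add_of_nonneg_right (h0 _ _ _ _))
  have h1 := prod_sub_prod_le W a b hb0 hab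
  have h2 : ∀ u, ∏ j ∈ W.erase u, a j ≤ FW g (W.erase u) σ := fun u =>
    prod_le_prod (fun i _ => ha0 i) fun i _ =>
      psi_anti (sum_le_sum_of_subset_of_nonneg (erase_subset _ _) fun _ _ _ => h0 _ _ _ _)
  have h3 : ∑ u ∈ W, (a u - b u) * ∏ j ∈ W.erase u, a j ≤
      ∑ u ∈ W, (g u v (σ u) (σ v) / 8) * FW g (W.erase u) σ := by
    refine sum_le_sum fun u _ => ?_
    exact mul_le_mul (psi_sub (h0 _ _ _ _)) (h2 u) (prod_nonneg fun i _ => ha0 i)
      (div_nonneg (h0 _ _ _ _) (by norm_num))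
  have h4 : (1 - a v) * ∏ u ∈ W, a u ≤
      ∑ u ∈ W, (g v u (σ v) (σ u) / 8) * FW g (W.erase u) σ := by
    have : 1 - a v ≤ ∑ u ∈ W, g v u (σ v) (σ u) / 8 := by
      rw [← sum_div]
      exact one_sub_psi (sum_nonneg fun _ _ => h0 _ _ _ _)
    refine (mul_le_mul_of_nonneg_right this (prod_nonneg fun i _ => ha0 i)).trans ?_
    rw [sum_mul]
    refine sum_le_sum fun u hu => ?_
    refine mul_le_mul_of_nonneg_left ?_ (div_nonneg (h0 _ _ _ _) (by norm_num))
    rw [← mul_prod_erase W a hu]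
    refine le_trans ?_ (h2 u)
    exact mul_le_of_le_one_left (prod_nonneg fun i _ => ha0 i) (ha1 u)
  have h5 : ∏ i ∈ W, b i ≤ ∏ i ∈ W, a i := prod_le_prod (fun i _ => hb0 i) fun i _ => hab i
  have h6 := mul_le_mul_of_nonneg_left h5 (sub_nonneg.2 (ha1 v))
  have e3 : ∑ u ∈ W, ((g u v (σ u) (σ v) + g v u (σ v) (σ u)) / 8) * FW g (W.erase u) σ =
      ∑ u ∈ W, (g u v (σ u) (σ v) / 8) * FW g (W.erase u) σ +
        ∑ u ∈ W, (g v u (σ v) (σ u) / 8) * FW g (W.erase u) σ := by
    rw [← sum_add_distrib]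
    exact sum_congr rfl fun u _ => by ring
  rw [e1, e2, e3]
  nlinarith

/-- **Local lemma for pair costs.** -/
theorem local_lemma {p : Ω → ℝ} (hp : ∀ a, 0 ≤ p a) (h1 : ∑ a, p a = 1)
    (g : B → B → Ω → Ω → ℝ) (h0 : ∀ u v a b, 0 ≤ g u v a b) (hd : ∀ u a b, g u u a b = 0)
    (w : B → B → ℝ) (hw : ∀ u v, ∑ a, ∑ a', p a * p a' * g u v a a' ≤ w u v)
    (hrow : ∀ u, ∑ v, w u v ≤ 1) (hcol : ∀ v, ∑ u, w u v ≤ 1) :
    ∃ σ : B → Ω, ∀ u, ∑ v, g u v (σ u) (σ v) < 8 := by
  have hw0 : ∀ u v, 0 ≤ w u v := fun u v =>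
    le_trans (sum_nonneg fun a _ => sum_nonneg fun a' _ =>
      mul_nonneg (mul_nonneg (hp _) (hp _)) (h0 _ _ _ _)) (hw u v)
  have hZ0 : ∀ W : Finset B, 0 ≤ Ex p (FW g W) := fun W =>
    sum_nonneg fun σ _ => mul_nonneg (prod_nonneg fun _ _ => hp _)
      (prod_nonneg fun _ _ => psi_nonneg _)
  have key : ∀ W : Finset B, ∀ v ∉ W, Ex p (FW g W) ≤ 2 * Ex p (FW g (insert v W)) := by
    intro W
    induction W using Finset.strongInduction with
    | H W ih =>
      intro v hv
      have h2 := Ex_mono hp (FW_insert h0 hd hv)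
      rw [Ex_sub, Ex_sum] at h2
      have h3 : ∀ u ∈ W, (Ex p fun σ : B → Ω =>
          ((g u v (σ u) (σ v) + g v u (σ v) (σ u)) / 8) * FW g (W.erase u) σ) ≤
          (w u v + w v u) / 8 * (2 * Ex p (FW g W)) := by
        intro u hu
        have huv : u ≠ v := fun h => hv (h ▸ hu)
        rw [Ex_factor h1 (FW g (W.erase u)) huv (FW_update g (notMem_erase u W))
          (FW_update g (fun h => hv (mem_of_mem_erase h)))
          (fun a a' => (g u v a a' + g v u a' a) / 8)]
        have h4 := ih (W.erase u) (erase_ssubset hu) u (notMem_erase u W)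
        rw [insert_erase hu] at h4
        refine mul_le_mul ?_ h4 (hZ0 _) (by have := hw0 u v; have := hw0 v u; linarith)
        have h5 := hw u v
        have h6 := hw v u
        rw [sum_comm] at h6
        have e : ∑ a, ∑ a', p a * p a' * ((g u v a a' + g v u a' a) / 8) =
            (∑ a, ∑ a', p a * p a' * g u v a a' + ∑ a, ∑ a', p a' * p a * g v u a' a) / 8 := by
          rw [← sum_add_distrib, sum_div]
          refine sum_congr rfl fun a _ => ?_
          rw [← sum_add_distrib, sum_div]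
          exact sum_congr rfl fun a' _ => by ring
        rw [e]
        linarith
      have h7 := sum_le_sum h3
      rw [← sum_mul, ← sum_div, sum_add_distrib] at h7
      have h8 : ∑ u ∈ W, w u v ≤ 1 :=
        (sum_le_sum_of_subset_of_nonneg (subset_univ W) fun _ _ _ => hw0 _ _).trans (hcol v)
      have h9 : ∑ u ∈ W, w v u ≤ 1 :=
        (sum_le_sum_of_subset_of_nonneg (subset_univ W) fun _ _ _ => hw0 _ _).trans (hrow v)
      have h10 := hZ0 W
      nlinarith
  have pos : ∀ W : Finset B, 0 < Ex p (FW g W) := by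
    intro W
    induction W using Finset.induction_on with
    | empty =>
      have : FW g (∅ : Finset B) = fun _ => 1 := by funext σ; simp [FW]
      rw [this, Ex_one h1]
      exact one_pos
    | insert v W hv ih => have := key W v hv; linarith
  by_contra hcon
  push Not at hcon
  have : Ex p (FW g (univ : Finset B)) = 0 := by
    refine sum_eq_zero fun σ _ => ?_
    obtain ⟨u, hu⟩ := hcon σ
    have : FW g univ σ = 0 := prod_eq_zero (mem_univ u) (max_eq_left (by linarith))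
    rw [this, mul_zero]
  exact absurd (pos univ) (by rw [this]; exact lt_irrefl _)

end

end Pool.Agent.P.MP_5faa0b_co
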