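import Pool.Agent.P.MP_5faa0b_co.Start

/-! The subquadratic bound. -/

namespace Pool.Agent.P.MP_5faa0b_co

open Finset

open Classical in
theorem emb_of_deg {n : ℕ} {red : ℕ → ℕ → Prop} (htri : ∀ x y z, red x y → red x z → ¬ red y z)
    {N : ℕ} (p : Fin n → Fin n) {x : ℕ} (h : n ≤ ((range N).filter (red x)).card) :
    Emb red N p := by
  obtain ⟨e, he, hm⟩ := exists_enum ((range N).filter (red x))
  have h1 : ∀ i : Fin n, e i < N ∧ red x (e i) := fun i => by
    simpa using hm i (i.2.trans_le h)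
  exact ⟨fun i => e i, fun i j hij => he hij, fun i => (h1 i).1,
    fun i => htri x _ _ (h1 i).2 (h1 (p i)).2⟩

theorem emb_sq {n : ℕ} {red : ℕ → ℕ → Prop} (hs : ∀ x y, red x y → red y x) (hi : ∀ x, ¬ red x x)
    (htri : ∀ x y z, red x y → red x z → ¬ red y z) {p : Fin n → Fin n}
    (hp : Function.Involutive p) : Emb red (n * n) p := by
  classical
  by_contra hcon
  have hlt : ∀ i : Fin n, (i : ℕ) * n + n ≤ n * n := fun i => by
    rw [← Nat.succ_mul]
    exact Nat.mul_le_mul_right _ i.2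
  refine hcon (select hs hi hp (fun i => Set.Ico (i * n) (i * n + n)) ?_
    (fun i x hx => hx.2.trans_le (hlt i)) ?_)
  · intro i j hij x hx y hy
    have h1 : ((i : ℕ) + 1) * n ≤ j * n := Nat.mul_le_mul_right _ hij
    rw [Nat.succ_mul] at h1
    exact hx.2.trans_le (h1.trans hy.1)
  · intro i
    have hn : 0 < n := i.pos
    refine ⟨i * n, ⟨le_rfl, by omega⟩, ?_⟩
    by_contra h2
    push Not at h2
    refine hcon (emb_of_deg htri p (x := i * n) ?_)
    refine le_trans (le_of_eq ?_) (card_le_card (s := Ico ((p i : ℕ) * n) (p i * n + n)) ?_)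
    · simp
    · intro y hy
      rw [mem_Ico] at hy
      exact mem_filter.2 ⟨mem_range.2 (hy.2.trans_le (hlt _)), h2 y hy⟩

theorem Good.mono {n : ℕ} {red : ℕ → ℕ → Prop} {N t m : ℕ} {p : Fin n → Fin n} {T : ℕ}
    {Θ Θ' : ℝ} (h : Good red N t m p T Θ) (hle : Θ ≤ Θ') : Good red N t m p T Θ' := by
  obtain ⟨B, _, M, h1, h2⟩ := h
  exact ⟨B, _, M, h1, fun b => (h2 b).trans hle⟩

theorem core_nat : ∃ c A : ℕ, 0 < c ∧ 2 ≤ A ∧ ∀ n : ℕ, ∃ N J : ℕ, N * 2 ^ J ≤ 32 * n ^ 2 ∧
    n ≤ c * A ^ J ∧ ∀ (p : Fin n → Fin n) (red : ℕ → ℕ → Prop), Function.Involutive p →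
      (∀ x y, red x y → red y x) → (∀ x, ¬ red x x) →
      (∀ x y z, red x y → red x z → ¬ red y z) → Emb red N p := by
  obtain ⟨m, hm, hit⟩ := iterate_step
  set s := m ^ m ^ 2 with hsd
  have hs0 : 0 < s := by positivity
  set a := 2 * s ^ 4 with ha
  have ha2 : 2 ≤ a := Nat.le_mul_of_pos_right _ (by positivity)
  set c := 4 * (32 * m) ^ 2 with hc
  have hc0 : 0 < c := by positivity
  have hA : 2 ≤ a ^ 2 := by nlinarith
  refine ⟨c * a ^ 2, a ^ 2, by positivity, hA, ?_⟩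
  intro n
  rcases lt_or_ge n (c * a ^ 2) with hn | hn
  · exact ⟨n * n, 0, by nlinarith, by simpa using hn.le,
      fun p red hp hs hi htri => emb_sq hs hi htri hp⟩
  have h1 : a ^ 2 ≤ n / c := (Nat.le_div_iff_mul_le hc0).2 (by rwa [mul_comm])
  set J := Nat.log (a ^ 2) (n / c) with hJ
  have hJ1 : 1 ≤ J := Nat.le_log_of_pow_le hA (by rwa [pow_one])
  have h2 : (a ^ 2) ^ J ≤ n / c := Nat.pow_log_le_self _ (by omega)
  have h3 : n / c < (a ^ 2) ^ (J + 1) := Nat.lt_pow_succ_log_self hA _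
  rw [Nat.le_div_iff_mul_le hc0] at h2
  rw [Nat.div_lt_iff_lt_mul hc0] at h3
  set r := a ^ J with hr
  have hr0 : 0 < r := by positivity
  have hrr : (a ^ 2) ^ J = r * r := by rw [hr, sq, mul_pow]
  rw [hrr] at h2
  set t := n / r + 1 with ht
  have ht0 : 0 < t := Nat.succ_pos _
  have hnt : n ≤ r * t := (Nat.lt_mul_div_succ n hr0).le
  have hrn : r ≤ n := by
    refine le_trans ?_ h2
    rw [mul_assoc]
    exact Nat.le_mul_of_pos_right _ (by positivity)
  have hrt : r * t ≤ 2 * n := by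
    have := Nat.mul_div_le n r
    rw [ht, mul_add]
    omega
  have hct : 4 * r * (32 * m) ^ 2 ≤ t := by
    have : c * r ≤ n / r := (Nat.le_div_iff_mul_le hr0).2 (by linarith)
    rw [hc] at this
    linarith
  have hrs : r = 2 ^ J * (s ^ (2 * J)) ^ 2 := by rw [hr, ha]; ring
  refine ⟨r * (2 * Wd m t (2 * J) 1 ^ 2), J, ?_, ?_, ?_⟩
  · have : r * (2 * Wd m t (2 * J) 1 ^ 2) * 2 ^ J = 8 * (r * t) ^ 2 := by
      unfold Wd
      rw [← hsd, sq (r * t)]
      nth_rewrite 3 [hrs]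
      ring
    rw [this]
    have := Nat.pow_le_pow_left hrt 2
    linarith
  · refine h3.le.trans (le_of_eq ?_)
    ring
  · intro p red hp hs hi htri
    classical
    by_contra hcon
    refine hcon (finish ht0 hs hi hp (hit red _ t p hs hp J
      ((start hs htri p hm ht0 hr0 hnt hct ?_).mono ?_)))
    · intro x
      have h4 : ((range (r * (2 * Wd m t (2 * J) 1 ^ 2))).filter (red x)).card ≤ r * t := by
        by_contra h5
        exact hcon (emb_of_deg htri p (x := x) (by omega))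
      unfold ind
      rw [sum_boole]
      exact_mod_cast h4
    · have h4 : (r : ℝ) = 2 ^ J * (((m : ℝ) ^ m ^ 2) ^ (2 * J)) ^ 2 := by
        rw [hrs, hsd]
        push_cast
        rfl
      rw [h4, ← mul_assoc, mul_div_cancel_right₀ _ (by positivity),
        show (1024 : ℝ) = 512 * 2 by norm_num, mul_pow]
      have h5 : (512 : ℝ) ^ 1 ≤ 512 ^ J := pow_le_pow_right₀ (by norm_num) hJ1
      have h6 : (1 : ℝ) ≤ 2 ^ J := one_le_pow₀ (by norm_num)
      nlinarith

theorem core : ∃ ε : ℝ, 0 < ε ∧ ∃ C : ℝ, 0 < C ∧ ∀ n : ℕ, ∃ N : ℕ,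
    (N : ℝ) ≤ C * (n : ℝ) ^ (2 - ε) ∧
    ∀ (p : Fin n → Fin n) (red : ℕ → ℕ → Prop), Function.Involutive p →
      (∀ x y, red x y → red y x) → (∀ x, ¬ red x x) →
      (∀ x y z, red x y → red x z → ¬ red y z) → Emb red N p := by
  obtain ⟨c, A, hc, hA, h⟩ := core_nat
  have hA' : (2 : ℝ) ≤ A := by exact_mod_cast hA
  have hc' : (1 : ℝ) ≤ c := by exact_mod_cast hc
  have hlA : 0 < Real.log A := Real.log_pos (by linarith)
  set ε := Real.log 2 / Real.log A with hε
  have hε0 : 0 < ε := div_pos (Real.log_pos one_lt_two) hlA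
  have hε1 : ε ≤ 1 := (div_le_one hlA).2 (Real.log_le_log two_pos hA')
  have hAε : (A : ℝ) ^ ε = 2 := by
    rw [Real.rpow_def_of_pos (by linarith), hε, mul_div_cancel₀ _ hlA.ne', Real.exp_log two_pos]
  refine ⟨ε, hε0, 32 * c, by positivity, fun n => ?_⟩
  obtain ⟨N, J, h1, h2, h3⟩ := h n
  refine ⟨N, ?_, h3⟩
  have h1' : (N : ℝ) * 2 ^ J ≤ 32 * (n : ℝ) ^ 2 := by exact_mod_cast h1
  have h2' : (n : ℝ) ≤ c * (A : ℝ) ^ J := by exact_mod_cast h2
  rcases Nat.eq_zero_or_pos n with rfl | hn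
  · have : N = 0 := by simpa using h1
    rw [this, Nat.cast_zero]
    positivity
  have hn' : (0 : ℝ) < n := by positivity
  have h4 : (n : ℝ) ^ ε ≤ c * 2 ^ J := by
    refine (Real.rpow_le_rpow hn'.le h2' hε0.le).trans ?_
    rw [Real.mul_rpow (by positivity) (by positivity), ← Real.rpow_natCast, ← Real.rpow_mul
      (by positivity), mul_comm (J : ℝ), Real.rpow_mul (by positivity), hAε, Real.rpow_natCast]
    exact mul_le_mul_of_nonneg_right
      ((Real.rpow_le_rpow_of_exponent_le hc' hε1).trans (Real.rpow_one _).le) (by positivity)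
  rw [Real.rpow_sub hn', ← mul_div_assoc, le_div_iff₀ (by positivity), Real.rpow_two]
  have h5 := mul_le_mul_of_nonneg_left h4 (Nat.cast_nonneg N : (0 : ℝ) ≤ N)
  have h6 := mul_le_mul_of_nonneg_left h1' (show (0 : ℝ) ≤ c by positivity)
  nlinarith

end Pool.Agent.P.MP_5faa0b_co
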