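import Pool.Agent.P.MP_5faa0b_co.Finish

/-! The initial state. -/

namespace Pool.Agent.P.MP_5faa0b_co

open Finset

theorem exists_enum (S : Finset ℕ) : ∃ e : ℕ → ℕ, StrictMono e ∧ ∀ x < S.card, e x ∈ S := by
  refine ⟨fun x => if h : x < S.card then S.orderEmbOfFin rfl ⟨x, h⟩ else S.sup id + 1 + x, ?_, ?_⟩
  · intro x y hxy
    simp only
    split_ifs with h1 h2 h2
    · exact (S.orderEmbOfFin rfl).strictMono hxy
    · have : S.orderEmbOfFin rfl ⟨x, h1⟩ ≤ S.sup id :=
        le_sup (f := id) (orderEmbOfFin_mem S rfl _)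
      omega
    · omega
    · omega
  · intro x hx
    simp only [dif_pos hx]
    exact orderEmbOfFin_mem S rfl _

theorem sum_enum_le {S : Finset ℕ} {e : ℕ → ℕ} (he : StrictMono e) {k : ℕ}
    (h : ∀ x < k, e x ∈ S) (f : ℕ → ℝ) (hf : ∀ x, 0 ≤ f x) :
    ∑ x ∈ range k, f (e x) ≤ ∑ x ∈ S, f x := by
  rw [← sum_image (s := range k) (g := e) (fun _ _ _ _ h => he.injective h)]
  refine sum_le_sum_of_subset_of_nonneg (fun c hc => ?_) fun _ _ _ => hf _
  obtain ⟨x, hx, rfl⟩ := mem_image.1 hc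
  exact h x (mem_range.1 hx)

theorem region {red : ℕ → ℕ → Prop}
    (htri : ∀ x y z, red x y → red x z → ¬ red y z) (Q : ℕ) (hQ : 0 < Q) (Rg : Finset ℕ)
    (hR : 2 * Q ^ 2 ≤ Rg.card) :
    ∃ (g : ℕ) (S : ℕ → Finset ℕ), 0 < g ∧ (∀ ω < Q, S ω ⊆ Rg) ∧ (∀ ω < Q, (S ω).card = Q * g) ∧
      (∀ ω < Q, ∀ x ∈ S ω, ∀ Y ⊆ S ω, g ≤ Y.card → ∃ y ∈ Y, ¬ red x y) ∧
      ∀ f : ℕ → ℝ, (∀ x, 0 ≤ f x) → ∑ ω ∈ range Q, ∑ x ∈ S ω, f x ≤ g * ∑ x ∈ Rg, f x := by
  by_cases hT : ∃ T ⊆ Rg, T.card = Q * Q ∧ ∀ I ⊆ T, I.card = Q → ∃ x ∈ I, ∃ y ∈ I, red x y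
  · obtain ⟨T, hT1, hT2, hT3⟩ := hT
    refine ⟨Q, fun _ => T, hQ, fun _ _ => hT1, fun _ _ => hT2, ?_, ?_⟩
    · intro _ _ x _ Y hY hc
      by_contra hcon
      push Not at hcon
      obtain ⟨I, hI1, hI2⟩ := exists_subset_card_eq hc
      obtain ⟨y, hy, z, hz, hyz⟩ := hT3 I (hI1.trans hY) hI2
      exact htri x y z (hcon y (hI1 hy)) (hcon z (hI1 hz)) hyz
    · intro f hf
      rw [sum_const, card_range, nsmul_eq_mul]
      exact mul_le_mul_of_nonneg_left (sum_le_sum_of_subset_of_nonneg hT1 fun _ _ _ => hf _)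
        (by positivity)
  · push Not at hT
    have key : ∀ k ≤ Q, ∃ (S : ℕ → Finset ℕ) (U : Finset ℕ), U ⊆ Rg ∧ U.card ≤ k * Q ∧
        (∀ ω < k, S ω ⊆ Rg ∧ (S ω).card = Q ∧ ∀ x ∈ S ω, ∀ y ∈ S ω, ¬ red x y) ∧
        ∀ f : ℕ → ℝ, ∑ ω ∈ range k, ∑ x ∈ S ω, f x = ∑ x ∈ U, f x := by
      intro k
      induction k with
      | zero => exact fun _ => ⟨fun _ => ∅, ∅, by simp, by simp, by simp, by simp⟩
      | succ k ih =>
        intro hk
        obtain ⟨S, U, h1, h2, h3, h4⟩ := ih (by omega)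
        have h5 : Q * Q ≤ (Rg \ U).card := by
          rw [card_sdiff_of_subset h1]
          have : k * Q ≤ Q * Q := Nat.mul_le_mul_right _ (by omega)
          rw [sq] at hR
          omega
        obtain ⟨T, hT1, hT2⟩ := exists_subset_card_eq h5
        obtain ⟨I, hI1, hI2, hI3⟩ := hT T (hT1.trans sdiff_subset) hT2
        have hd : Disjoint U I := by
          rw [disjoint_left]
          intro x hx hx'
          exact (mem_sdiff.1 (hT1 (hI1 hx'))).2 hx
        have hIR : I ⊆ Rg := hI1.trans (hT1.trans sdiff_subset)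
        refine ⟨Function.update S k I, U ∪ I, union_subset h1 hIR, ?_, ?_, ?_⟩
        · rw [card_union_of_disjoint hd, hI2, Nat.succ_mul]
          omega
        · intro ω hω
          rcases (Nat.lt_succ_iff.1 hω).eq_or_lt with rfl | h
          · rw [Function.update_self]
            exact ⟨hIR, hI2, hI3⟩
          · rw [Function.update_of_ne h.ne]
            exact h3 ω h
        · intro f
          rw [sum_range_succ, sum_union hd, Function.update_self, ← h4]
          congr 1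
          exact sum_congr rfl fun ω hω => by rw [Function.update_of_ne (mem_range.1 hω).ne]
    obtain ⟨S, U, h1, -, h3, h4⟩ := key Q le_rfl
    refine ⟨1, S, one_pos, fun ω hω => (h3 ω hω).1, fun ω hω => by rw [(h3 ω hω).2.1, mul_one],
      ?_, ?_⟩
    · intro ω hω x hx Y hY hc
      obtain ⟨y, hy⟩ := card_pos.1 hc
      exact ⟨y, hy, (h3 ω hω).2.2 x hx y (hY hy)⟩
    · intro f hf
      rw [h4, Nat.cast_one, one_mul]
      exact sum_le_sum_of_subset_of_nonneg h1 fun _ _ _ => hf _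

theorem rpow_mul_le_add {x y : ℝ} (hx : 0 ≤ x) (hx1 : x ≤ 1) (hy : 0 ≤ y) :
    (x * y) ^ (3 / 4 : ℝ) ≤ x + y := by
  rcases le_total 1 (x * y) with h | h
  · have := (Real.rpow_le_rpow_of_exponent_le h (show (3 / 4 : ℝ) ≤ 1 by norm_num)).trans
      (Real.rpow_one _).le
    nlinarith
  · have h1 := Real.rpow_le_rpow_of_exponent_ge' (mul_nonneg hx hy) h
      (show (0 : ℝ) ≤ 1 / 2 by norm_num) (show (1 / 2 : ℝ) ≤ 3 / 4 by norm_num)
    refine h1.trans ?_
    rw [← Real.sqrt_eq_rpow]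
    exact Real.sqrt_le_iff.2 ⟨by linarith, by nlinarith⟩

theorem start {n : ℕ} {red : ℕ → ℕ → Prop} (hs : ∀ x y, red x y → red y x)
    (htri : ∀ x y z, red x y → red x z → ¬ red y z) {t m r T : ℕ} (p : Fin n → Fin n)
    (hm : 0 < m) (ht : 0 < t) (hr : 0 < r) (hn : n ≤ r * t) (hrt : 4 * r * (32 * m) ^ 2 ≤ t)
    (hdeg : ∀ x, ∑ y ∈ range (r * (2 * Wd m t T 1 ^ 2)), ind red x y ≤ r * t) :
    Good red (r * (2 * Wd m t T 1 ^ 2)) t m p T (1 + 4 * r / (((m : ℝ) ^ m ^ 2) ^ T) ^ 2) := by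
  classical
  set Q := Wd m t T 1 with hQ
  have hQ0 : 0 < Q := by simp only [hQ, Wd]; positivity
  have hW : ∀ g, Wd m t T g = Q * g := fun g => by simp only [hQ, Wd]; ring
  have hQ' : (0 : ℝ) < Q := by positivity
  have ht' : (0 : ℝ) < t := by positivity
  have hr' : (0 : ℝ) < r := by positivity
  have hQR : (Q : ℝ) = ((m : ℝ) ^ m ^ 2) ^ T * (2 * t) := by simp [hQ, Wd]
  set Rg : ℕ → Finset ℕ := fun a => Ico (a * (2 * Q ^ 2)) (a * (2 * Q ^ 2) + 2 * Q ^ 2) with hRg
  choose g S hg hS1 hS2 hS3 hS4 using fun a => region htri Q hQ0 (Rg a) (by simp [hRg])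
  choose E hE1 hE2 using exists_enum
  have hRsum : ∀ f : ℕ → ℝ, ∑ a : Fin r, ∑ y ∈ Rg a, f y =
      ∑ y ∈ range (r * (2 * Q ^ 2)), f y := by
    intro f
    rw [sum_range_mul', Fin.sum_univ_eq_sum_range (fun a => ∑ y ∈ Rg a, f y)]
    refine sum_congr rfl fun a _ => ?_
    simp only [hRg]
    rw [sum_Ico_eq_sum_range, Nat.add_sub_cancel_left]
  set w : Fin r → Fin r → ℝ := fun a b =>
    (∑ x ∈ Rg a, ∑ y ∈ Rg b, ind red x y) / (Q ^ 2 * (2 * (r * t))) with hw
  have hws : ∀ a b, w a b = w b a := by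
    intro a b
    simp only [hw]
    rw [sum_comm]
    congr 1
    refine sum_congr rfl fun _ _ => sum_congr rfl fun _ _ => ?_
    unfold ind
    rw [show ∀ x y, red x y ↔ red y x from fun x y => ⟨hs _ _, hs _ _⟩]
  have hwrow : ∀ a, ∑ b, w a b ≤ 1 := by
    intro a
    simp only [hw]
    rw [← sum_div, div_le_one (by positivity), sum_comm]
    simp only [hRsum]
    refine (sum_le_sum fun x _ => hdeg x).trans (le_of_eq ?_)
    simp [hRg]
    ring
  set D0 : Fin r → Fin r → ℕ → ℕ → ℝ := fun a b ω ω' =>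
    Dn (fun x y => ind red (E (S a ω) x) (E (S b ω') y)) (Q * g a) 0 (Q * g b) 0 with hD0
  have hD00 : ∀ a b ω ω', 0 ≤ D0 a b ω ω' := fun _ _ _ _ =>
    Dn_nonneg (fun _ _ => ind_nonneg _ _ _) _ _ _ _
  obtain ⟨σ, hσ⟩ := local_lemma (Ω := Fin Q) (p := fun _ => 1 / (Q : ℝ)) (fun _ => by positivity)
    (by simp; field_simp)
    (fun (a b : Fin r) ω ω' => if a = b then 0 else D0 a b ω ω' * (Q ^ 2 / (2 * (r * t))))
    (fun _ _ _ _ => by
      split_ifs
      · exact le_rfl
      · exact mul_nonneg (hD00 _ _ _ _) (by positivity))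
    (fun _ _ _ => if_pos rfl) w (by
      intro a b
      have hga : (0 : ℝ) < g a := by have := hg a; positivity
      have hgb : (0 : ℝ) < g b := by have := hg b; positivity
      have h1 : ∀ ω ω' : Fin Q, D0 a b ω ω' ≤
          (∑ x ∈ S a ω, ∑ y ∈ S b ω', ind red x y) / ((Q * g a) * (Q * g b)) := by
        intro ω ω'
        simp only [hD0]
        rw [Dn_eq]
        push_cast
        refine div_le_div_of_nonneg_right ?_ (by positivity)
        simp only [zero_mul, zero_add]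
        refine (sum_le_sum fun x _ => sum_enum_le (hE1 _) (S := S b ω')
          (fun y hy => hE2 _ y (by rwa [hS2 b ω' ω'.2])) (fun y => ind red (E (S a ω) x) y)
          fun _ => ind_nonneg _ _ _).trans ?_
        exact sum_enum_le (hE1 _) (fun y hy => hE2 _ y (by rwa [hS2 a ω ω.2]))
          (fun x => ∑ y ∈ S b ω', ind red x y) fun _ => sum_nonneg fun _ _ => ind_nonneg _ _ _
      have h2 : ∑ ω : Fin Q, ∑ ω' : Fin Q, ∑ x ∈ S a ω, ∑ y ∈ S b ω', ind red x y ≤
          g a * (g b * ∑ x ∈ Rg a, ∑ y ∈ Rg b, ind red x y) := by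
        have h3 : ∀ x, ∑ ω' : Fin Q, ∑ y ∈ S b ω', ind red x y ≤ g b * ∑ y ∈ Rg b, ind red x y := by
          intro x
          rw [Fin.sum_univ_eq_sum_range (fun ω' => ∑ y ∈ S b ω', ind red x y)]
          exact hS4 b _ fun _ => ind_nonneg _ _ _
        refine le_trans (sum_le_sum fun (ω : Fin Q) _ => (le_of_eq sum_comm).trans
          (sum_le_sum fun x _ => h3 x)) ?_
        rw [Fin.sum_univ_eq_sum_range (fun ω => ∑ x ∈ S a ω, g b * ∑ y ∈ Rg b, ind red x y),
          mul_sum (Rg a)]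
        exact hS4 a _ fun _ => mul_nonneg hgb.le (sum_nonneg fun _ _ => ind_nonneg _ _ _)
      have h4 : ∑ ω : Fin Q, ∑ ω' : Fin Q, 1 / (Q : ℝ) * (1 / (Q : ℝ)) *
          (if a = b then 0 else D0 a b ω ω' * (Q ^ 2 / (2 * (r * t)))) ≤
          ∑ ω : Fin Q, ∑ ω' : Fin Q, (∑ x ∈ S a ω, ∑ y ∈ S b ω', ind red x y) /
            ((Q * g a) * (Q * g b) * (2 * (r * t))) := by
        refine sum_le_sum fun ω _ => sum_le_sum fun ω' _ => ?_
        split_ifs
        · rw [mul_zero]
          exact div_nonneg (sum_nonneg fun _ _ => sum_nonneg fun _ _ => ind_nonneg _ _ _)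
            (by positivity)
        · refine (mul_le_mul_of_nonneg_left (mul_le_mul_of_nonneg_right (h1 ω ω')
            (by positivity)) (by positivity)).trans (le_of_eq ?_)
          field_simp
      refine h4.trans ?_
      simp only [← sum_div]
      refine (div_le_div_of_nonneg_right h2 (by positivity)).trans (le_of_eq ?_)
      simp only [hw]
      field_simp) hwrow (fun b => by
        simp only [fun a => hws a b]
        exact hwrow b)
  have hβ : ∀ i : Fin n, (i : ℕ) / t < r := fun i =>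
    (Nat.div_lt_iff_lt_mul ht).2 (i.2.trans_le hn)
  set β : Fin n → Fin r := fun i => ⟨i / t, hβ i⟩ with hβd
  set e : Fin r → ℕ → ℕ := fun a => E (S a (σ a)) with he
  have hDe : ∀ a b, De red e (fun a => Wd m t T (g a)) a b = D0 a b (σ a) (σ b) := by
    intro a b
    simp only [De, hW, hD0, he]
  have hmem : ∀ a : Fin r, ∀ x < Wd m t T (g a), e a x ∈ S a (σ a) := by
    intro a x hx
    exact hE2 _ x (by rwa [hS2 a _ (σ a).2, ← hW])
  have hreg : ∀ a : Fin r, ∀ x < Wd m t T (g a),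
      a * (2 * Q ^ 2) ≤ e a x ∧ e a x < a * (2 * Q ^ 2) + 2 * Q ^ 2 := by
    intro a x hx
    exact mem_Ico.1 (hS1 a _ (σ a).2 (hmem a x hx))
  have hsp : (0 : ℝ) < (((m : ℝ) ^ m ^ 2) ^ T) ^ 2 := by positivity
  have hσ' : ∀ a, ∑ b, (if a = b then 0 else t * D0 a b (σ a) (σ b)) ≤
      4 * r / (((m : ℝ) ^ m ^ 2) ^ T) ^ 2 := by
    intro a
    have h1 := mul_le_mul_of_nonneg_left (hσ a).le
      (show 0 ≤ t * (2 * ((r : ℝ) * t)) / Q ^ 2 by positivity)
    rw [mul_sum] at h1
    refine le_trans (le_of_eq (sum_congr rfl fun b _ => ?_)) (h1.trans (le_of_eq ?_))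
    · split_ifs
      · simp
      · field_simp
    · rw [hQR]
      field_simp
      ring
  have hI : Inv red (r * (2 * Q ^ 2)) t m p T β e (fun a => g a) := by
    refine ⟨fun a => hg a, fun a => hE1 _, ?_, fun i j h => congrArg Fin.val h, ?_, ?_, ?_⟩
    · intro i j hij hne x hx y hy
      have h1 : (β i : ℕ) < β j :=
        lt_of_le_of_ne (Nat.div_le_div_right (le_of_lt hij)) fun h => hne (Fin.ext h)
      have h2 := (hreg _ x hx).2
      have h3 := (hreg _ y hy).1
      have h4 : ((β i : ℕ) + 1) * (2 * Q ^ 2) ≤ β j * (2 * Q ^ 2) := Nat.mul_le_mul_right _ h1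
      rw [Nat.succ_mul] at h4
      omega
    · intro i x hx
      have h2 := (hreg _ x hx).2
      have h4 : ((β i : ℕ) + 1) * (2 * Q ^ 2) ≤ r * (2 * Q ^ 2) := Nat.mul_le_mul_right _ (β i).2
      rw [Nat.succ_mul] at h4
      omega
    · intro i j hij o o' ho ho'
      have hb : β j = β i := Fin.ext hij.symm
      rw [hb] at ho' ⊢
      have h0 := hg (β i)
      obtain ⟨y, hy, hxy⟩ := hS3 (β i) _ (σ (β i)).2 (e (β i) (o + 0)) (hmem _ _ (by omega))
        ((range (g (β i))).image fun y => e (β i) (o' + y)) (by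
          intro v hv
          obtain ⟨y, hy, rfl⟩ := mem_image.1 hv
          exact hmem _ _ (by have := mem_range.1 hy; omega)) (by
          rw [card_image_of_injective _ (fun y y' h => by simpa using (hE1 _).injective h),
            card_range])
      obtain ⟨y', hy', rfl⟩ := mem_image.1 hy
      exact ⟨0, h0, y', mem_range.1 hy', hxy⟩
    · intro i hi
      have h1 := (single_le_sum (f := fun b => if β i = b then 0 else t * D0 (β i) b (σ (β i)) (σ b))
        (fun b _ => by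
          split_ifs
          · exact le_rfl
          · exact mul_nonneg ht'.le (hD00 _ _ _ _)) (mem_univ (β (p i)))).trans (hσ' (β i))
      rw [if_neg (fun h => hi (congrArg Fin.val h).symm), le_div_iff₀ hsp] at h1
      rw [hDe, le_div_iff₀ (by positivity)]
      have h2 : 4 * (r : ℝ) * (32 * m) ^ 2 ≤ t := by exact_mod_cast hrt
      refine le_of_mul_le_mul_left ?_ ht'
      have h3 := mul_le_mul_of_nonneg_right h1 (sq_nonneg (32 * (m : ℝ)))
      linarith
  refine ⟨Fin r, inferInstance, _, ⟨β, e, fun a => g a, hI, fun _ _ => rfl⟩, ?_⟩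
  intro a
  have hcard : ∑ b, ((lines t p β a b).card : ℝ) ≤ t := by
    have h1 : ∑ b, (lines t p β a b).card ≤ (univ.filter fun i => β i = a).card := by
      rw [card_eq_sum_card_fiberwise (f := fun i => β (p i)) (t := univ) (fun _ _ => mem_univ _)]
      refine sum_le_sum fun b _ => card_le_card fun i hi => ?_
      simp only [mem_filter, mem_lines, mem_univ, true_and] at hi ⊢
      exact ⟨hi.1, hi.2.1⟩
    have h2 : (univ.filter fun i => β i = a).card ≤ (range t).card := by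
      refine card_le_card_of_injOn (fun i => (i : ℕ) % t)
        (fun i _ => by simpa using Nat.mod_lt _ ht) fun i hi j hj h => Fin.ext ?_
      simp only [coe_filter, mem_univ, true_and, Set.mem_ofPred_eq] at hi hj h
      have h3 : (i : ℕ) / t = j / t := congrArg Fin.val (hi.trans hj.symm)
      rw [← Nat.div_add_mod (i : ℕ) t, ← Nat.div_add_mod (j : ℕ) t, h3, h]
    rw [card_range] at h2
    exact_mod_cast h1.trans h2
  have h5 : ∀ b, (((lines t p β a b).card : ℝ) * De red e (fun a => Wd m t T (g a)) a b) ^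
      (3 / 4 : ℝ) ≤ (lines t p β a b).card / t +
        (if a = b then 0 else t * D0 a b (σ a) (σ b)) := by
    intro b
    split_ifs with hab
    · rw [← hab, hI.lines_diag]
      simp
    · have h6 : ((lines t p β a b).card : ℝ) ≤ t :=
        (single_le_sum (f := fun b => ((lines t p β a b).card : ℝ)) (fun _ _ => Nat.cast_nonneg _)
          (mem_univ b)).trans hcard
      have := rpow_mul_le_add (x := (lines t p β a b).card / t) (y := t * D0 a b (σ a) (σ b))
        (div_nonneg (Nat.cast_nonneg _) ht'.le) ((div_le_one ht').2 h6)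
        (mul_nonneg ht'.le (hD00 _ _ _ _))
      rw [hDe]
      rwa [← mul_assoc, div_mul_cancel₀ _ ht'.ne'] at this
  refine (sum_le_sum fun b _ => h5 b).trans ?_
  rw [sum_add_distrib, ← sum_div]
  exact add_le_add ((div_le_one ht').2 hcard) (hσ' a)

end Pool.Agent.P.MP_5faa0b_co
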