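import Pool.Agent.P.MP_5faa0b_co.Dens

/-! The states of the embedding process and the splitting step. -/

namespace Pool.Agent.P.MP_5faa0b_co

open Finset

theorem exists_part {n : ℕ} {B : Type} [DecidableEq B] (β : Fin n → B) (sh : Fin n → ℝ)
    (cnt : B → ℕ) (hcnt : ∀ b, 0 < cnt b) (h0 : ∀ i, 0 ≤ sh i) (h1 : ∀ i, sh i ≤ 1 / cnt (β i))
    (hs : ∀ b, ∑ i with β i = b, sh i ≤ 1) :
    ∃ part : Fin n → ℕ, (∀ i, part i < cnt (β i)) ∧
      (∀ i j, i < j → β i = β j → part i ≤ part j) ∧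
      ∀ b d, ∑ i with β i = b ∧ part i = d, sh i ≤ 2 / cnt b := by
  set cum : Fin n → ℝ := fun i => ∑ j with j < i ∧ β j = β i, sh j with hcum
  have hc0 : ∀ i, 0 ≤ cum i := fun i => sum_nonneg fun _ _ => h0 _
  refine ⟨fun i => min (cnt (β i) - 1) ⌊cnt (β i) * cum i⌋₊, ?_, ?_, ?_⟩
  · intro i
    have := hcnt (β i)
    simp only
    omega
  · intro i j hij hβ
    simp only [← hβ]
    refine min_le_min le_rfl (Nat.floor_le_floor (mul_le_mul_of_nonneg_left ?_ (by positivity)))
    refine sum_le_sum_of_subset_of_nonneg ?_ fun _ _ _ => h0 _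
    intro k hk
    simp only [mem_filter, mem_univ, true_and] at hk ⊢
    exact ⟨hk.1.trans hij, hk.2.trans hβ⟩
  · intro b d
    set P : Finset (Fin n) := {i | β i = b ∧ min (cnt (β i) - 1) ⌊cnt (β i) * cum i⌋₊ = d} with hP
    have hb : (0 : ℝ) < cnt b := by have := hcnt b; positivity
    rcases P.eq_empty_or_nonempty with h | h
    · rw [h, sum_empty]
      positivity
    have m0 := P.min'_mem h
    have m1 := P.max'_mem h
    set i0 := P.min' h
    set i1 := P.max' h
    have hle0 : ∀ k ∈ P, i0 ≤ k := fun k hk => P.min'_le k hk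
    have hle1 : ∀ k ∈ P, k ≤ i1 := fun k hk => P.le_max' k hk
    have m0' := m0
    have m1' := m1
    simp only [hP, mem_filter, mem_univ, true_and] at m0' m1'
    obtain ⟨b0, d0⟩ := m0'
    obtain ⟨b1, d1⟩ := m1'
    rw [b0] at d0
    rw [b1] at d1
    have a1 : ∑ i ∈ P, sh i + cum i0 ≤ sh i1 + cum i1 := by
      simp only [hcum]
      rw [← sum_union, ← sum_insert (by simp)]
      · refine sum_le_sum_of_subset_of_nonneg ?_ fun _ _ _ => h0 _
        intro k hk
        simp only [mem_union, mem_insert, mem_filter, mem_univ, true_and] at hk ⊢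
        rcases hk with hk | hk
        · have h2 := hle1 k hk
          simp only [hP, mem_filter, mem_univ, true_and] at hk
          rcases h2.eq_or_lt with h3 | h3
          · exact Or.inl h3
          · exact Or.inr ⟨h3, hk.1.trans b1.symm⟩
        · exact Or.inr ⟨hk.1.trans_le (hle1 _ m0), by rw [hk.2, b0, b1]⟩
      · rw [disjoint_left]
        intro k hk hk'
        simp only [mem_filter, mem_univ, true_and] at hk'
        exact absurd (hle0 k hk) (not_le.2 hk'.1)
    have a2 : (d : ℝ) ≤ cnt b * cum i0 := by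
      have : d ≤ ⌊cnt b * cum i0⌋₊ := by omega
      exact (Nat.le_floor_iff (mul_nonneg hb.le (hc0 _))).1 this
    have a3 : cnt b * cum i1 ≤ d + 1 := by
      rcases le_total (cnt b - 1) ⌊cnt b * cum i1⌋₊ with h2 | h2
      · have h3 : cnt b = d + 1 := by have := hcnt b; omega
        have h4 : cum i1 ≤ 1 := by
          refine le_trans (sum_le_sum_of_subset_of_nonneg ?_ fun _ _ _ => h0 _) (hs b)
          intro k hk
          simp only [mem_filter, mem_univ, true_and] at hk ⊢
          exact hk.2.trans b1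
        have h5 : (cnt b : ℝ) = d + 1 := by exact_mod_cast h3
        nlinarith
      · have h3 : ⌊cnt b * cum i1⌋₊ = d := by omega
        rw [← h3]
        exact (Nat.lt_floor_add_one _).le
    have a4 := h1 i1
    rw [b1, le_div_iff₀ hb] at a4
    rw [le_div_iff₀ hb]
    nlinarith

open Classical in
/-- indicator of a red pair -/
noncomputable def ind (red : ℕ → ℕ → Prop) (x y : ℕ) : ℝ := if red x y then 1 else 0

theorem ind_nonneg (red : ℕ → ℕ → Prop) (x y : ℕ) : 0 ≤ ind red x y := by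
  unfold ind
  split_ifs <;> norm_num

/-- the size of the ground set of a block with slot size `g` and `T` steps to go -/
def Wd (m t T g : ℕ) : ℕ := (m ^ m ^ 2) ^ T * (2 * t * g)

section
variable {n : ℕ} {B : Type}

/-- red density between the ground sets of two blocks -/
noncomputable def De (red : ℕ → ℕ → Prop) (e : B → ℕ → ℕ) (w : B → ℕ) (b b' : B) : ℝ :=
  Dn (fun x y => ind red (e b x) (e b' y)) (w b) 0 (w b') 0

theorem De_nonneg (red : ℕ → ℕ → Prop) (e : B → ℕ → ℕ) (w : B → ℕ) (b b' : B) :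
    0 ≤ De red e w b b' := Dn_nonneg (fun _ _ => ind_nonneg _ _ _) _ _ _ _

theorem De_symm {red : ℕ → ℕ → Prop} (hs : ∀ x y, red x y → red y x) (e : B → ℕ → ℕ)
    (w : B → ℕ) (b b' : B) : De red e w b b' = De red e w b' b := by
  unfold De
  rw [Dn_symm]
  congr 1
  funext x y
  unfold ind
  rw [show red (e b y) (e b' x) ↔ red (e b' x) (e b y) from ⟨hs _ _, hs _ _⟩]

open Classical in
/-- the matching edges from block `b` to block `b'` joining different top blocks -/
noncomputable def lines (t : ℕ) (p : Fin n → Fin n) (β : Fin n → B) (b b' : B) :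
    Finset (Fin n) :=
  {i | β i = b ∧ β (p i) = b' ∧ (p i : ℕ) / t ≠ (i : ℕ) / t}

theorem mem_lines {t : ℕ} {p : Fin n → Fin n} {β : Fin n → B} {b b' : B} {i : Fin n} :
    i ∈ lines t p β b b' ↔ β i = b ∧ β (p i) = b' ∧ (p i : ℕ) / t ≠ (i : ℕ) / t := by
  simp [lines]

theorem card_lines_symm (t : ℕ) {p : Fin n → Fin n} (hp : Function.Involutive p) (β : Fin n → B)
    (b b' : B) : (lines t p β b b').card = (lines t p β b' b).card := by
  refine card_bijective p hp.bijective fun i => ?_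
  simp only [mem_lines, hp i]
  exact ⟨fun h => ⟨h.2.1, h.1, h.2.2.symm⟩, fun h => ⟨h.2.1, h.1, h.2.2.symm⟩⟩

/-- the invariants of the process -/
structure Inv (red : ℕ → ℕ → Prop) (N t m : ℕ) (p : Fin n → Fin n) (T : ℕ) (β : Fin n → B)
    (e : B → ℕ → ℕ) (g : B → ℕ) : Prop where
  gpos : ∀ b, 0 < g b
  mono : ∀ b, StrictMono (e b)
  ord : ∀ i j, i < j → β i ≠ β j → ∀ x < Wd m t T (g (β i)), ∀ y < Wd m t T (g (β j)),
    e (β i) x < e (β j) y
  top : ∀ i j, β i = β j → (i : ℕ) / t = (j : ℕ) / t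
  lt : ∀ i, ∀ x < Wd m t T (g (β i)), e (β i) x < N
  inner : ∀ i j : Fin n, (i : ℕ) / t = (j : ℕ) / t → ∀ o o', o + g (β i) ≤ Wd m t T (g (β i)) →
    o' + g (β j) ≤ Wd m t T (g (β j)) →
    ∃ x < g (β i), ∃ y < g (β j), ¬ red (e (β i) (o + x)) (e (β j) (o' + y))
  small : ∀ i : Fin n, (p i : ℕ) / t ≠ (i : ℕ) / t →
    De red e (fun b => Wd m t T (g b)) (β i) (β (p i)) * (((m : ℝ) ^ m ^ 2) ^ T) ^ 2 ≤
      1 / (32 * (m : ℝ)) ^ 2

end

/-- `M` is the matrix of potentials of a state with blocks `B` -/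
def St {n : ℕ} (red : ℕ → ℕ → Prop) (N t m : ℕ) (p : Fin n → Fin n) (T : ℕ) (B : Type)
    (M : B → B → ℝ) : Prop :=
  ∃ (β : Fin n → B) (e : B → ℕ → ℕ) (g : B → ℕ), Inv red N t m p T β e g ∧
    ∀ b b', M b b' = ((lines t p β b b').card * De red e (fun b => Wd m t T (g b)) b b') ^
      (3 / 4 : ℝ)

theorem St.nonneg {n : ℕ} {red : ℕ → ℕ → Prop} {N t m : ℕ} {p : Fin n → Fin n} {T : ℕ}
    {B : Type} {M : B → B → ℝ} (h : St red N t m p T B M) (b b' : B) : 0 ≤ M b b' := by
  obtain ⟨β, e, g, -, hM⟩ := h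
  rw [hM]
  exact Real.rpow_nonneg (mul_nonneg (Nat.cast_nonneg _) (De_nonneg _ _ _ _ _)) _

theorem St.symm {n : ℕ} {red : ℕ → ℕ → Prop} (hs : ∀ x y, red x y → red y x) {N t m : ℕ}
    {p : Fin n → Fin n} (hp : Function.Involutive p) {T : ℕ}
    {B : Type} {M : B → B → ℝ} (h : St red N t m p T B M) (b b' : B) : M b b' = M b' b := by
  obtain ⟨β, e, g, -, hM⟩ := h
  rw [hM, hM, card_lines_symm t hp, De_symm hs]

theorem Inv.lines_diag {n : ℕ} {red : ℕ → ℕ → Prop} {N t m : ℕ} {p : Fin n → Fin n} {T : ℕ}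
    {B : Type} {β : Fin n → B} {e : B → ℕ → ℕ} {g : B → ℕ} (h : Inv red N t m p T β e g)
    (b : B) : lines t p β b b = ∅ := by
  refine eq_empty_of_forall_notMem fun i hi => ?_
  rw [mem_lines] at hi
  exact hi.2.2 (h.top _ _ (hi.2.1.trans hi.1.symm))

theorem St.diag {n : ℕ} {red : ℕ → ℕ → Prop} {N t m : ℕ} {p : Fin n → Fin n} {T : ℕ}
    {B : Type} {M : B → B → ℝ} (h : St red N t m p T B M) (b : B) : M b b = 0 := by
  obtain ⟨β, e, g, hI, hM⟩ := h
  rw [hM, hI.lines_diag]
  simp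

theorem chunk_lt {k w c x : ℕ} (hc : c < k) (hx : x < w) : c * w + x < k * w := by
  nlinarith

/-- the structural part of the splitting step -/
theorem Inv.split {n : ℕ} {red : ℕ → ℕ → Prop} {N t m : ℕ} (hm : 0 < m) {p : Fin n → Fin n}
    {T : ℕ} {B : Type} {β : Fin n → B} {e : B → ℕ → ℕ} {g : B → ℕ}
    (h : Inv red N t m p (T + 1) β e g) (sc c : B → ℕ) (hsc : ∀ b, sc b < m ^ 2)
    (hc : ∀ b, c b < m ^ sc b) (part : Fin n → Fin m)
    (hpart : ∀ i j, i < j → β i = β j → part i ≤ part j) :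
    Inv red N t m p T (fun i => (β i, part i))
      (fun q x => e q.1 ((c q.1 * m + q.2) * Wd m t T (m ^ (m ^ 2 - (sc q.1 + 1)) * g q.1) + x))
      (fun q => m ^ (m ^ 2 - (sc q.1 + 1)) * g q.1) := by
  have hW : ∀ b, Wd m t (T + 1) (g b) =
      m ^ (sc b + 1) * Wd m t T (m ^ (m ^ 2 - (sc b + 1)) * g b) := by
    intro b
    have : m ^ m ^ 2 = m ^ (sc b + 1) * m ^ (m ^ 2 - (sc b + 1)) := by
      rw [← pow_add]
      congr 1
      have := hsc b
      omega
    unfold Wd
    rw [pow_succ]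
    generalize (m ^ m ^ 2) ^ T = a
    rw [this]
    ring
  have hin : ∀ b (d : Fin m), ∀ x < Wd m t T (m ^ (m ^ 2 - (sc b + 1)) * g b),
      (c b * m + d) * Wd m t T (m ^ (m ^ 2 - (sc b + 1)) * g b) + x < Wd m t (T + 1) (g b) := by
    intro b d x hx
    rw [hW]
    exact chunk_lt (child_lt (hc b) d.2) hx
  have hgle : ∀ b, g b ≤ m ^ (m ^ 2 - (sc b + 1)) * g b := fun b =>
    Nat.le_mul_of_pos_left _ (by positivity)
  refine ⟨fun q => Nat.mul_pos (by positivity) (h.gpos _), fun q x y hxy => h.mono _ (by omega),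
    ?_, fun i j hij => h.top i j (congrArg Prod.fst hij),
    fun i x hx => h.lt i _ (hin _ _ x hx), ?_, ?_⟩
  · intro i j hij hne x hx y hy
    by_cases hβ : β i = β j
    · have h1 : part i < part j := lt_of_le_of_ne (hpart i j hij hβ) fun h => hne (by rw [hβ, h])
      simp only [← hβ] at hx hy ⊢
      refine h.mono _ ?_
      have h2 : c (β i) * m + part i < c (β i) * m + part j := by
        have : (part i : ℕ) < part j := h1
        omega
      exact (chunk_lt h2 hx).trans_le (Nat.le_add_right _ _)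
    · exact h.ord i j hij hβ _ (hin _ _ x hx) _ (hin _ _ y hy)
  · intro i j hij o o' ho ho'
    simp only at ho ho' ⊢
    have key : ∀ b (d : Fin m) o, o + m ^ (m ^ 2 - (sc b + 1)) * g b ≤
        Wd m t T (m ^ (m ^ 2 - (sc b + 1)) * g b) →
        (c b * m + d) * Wd m t T (m ^ (m ^ 2 - (sc b + 1)) * g b) + o + g b ≤
          Wd m t (T + 1) (g b) := by
      intro b d o ho
      have h1 := hgle b
      have h2 := h.gpos b
      have h3 := hin b d (o + g b - 1) (by omega)
      omega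
    obtain ⟨x, hx, y, hy, hxy⟩ := h.inner i j hij _ _ (key _ (part i) o ho) (key _ (part j) o' ho')
    refine ⟨x, hx.trans_le (hgle _), y, hy.trans_le (hgle _), ?_⟩
    simpa only [add_assoc] using hxy
  · intro i hi
    refine le_trans ?_ (h.small i hi)
    unfold De
    simp only
    rw [Dn_shift (fun x y => ind red (e (β i) x) (e (β (p i)) y)), hW, hW]
    have h1 := Dn_le (F := fun x y => ind red (e (β i) x) (e (β (p i)) y))
      (fun _ _ => ind_nonneg _ _ _)
      (w := Wd m t T (m ^ (m ^ 2 - (sc (β i) + 1)) * g (β i)))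
      (w' := Wd m t T (m ^ (m ^ 2 - (sc (β (p i)) + 1)) * g (β (p i))))
      (child_lt (hc (β i)) (part i).2) (child_lt (hc (β (p i))) (part (p i)).2)
    refine (mul_le_mul_of_nonneg_right h1 (by positivity)).trans ?_
    have hm1 : (1 : ℝ) ≤ m := by exact_mod_cast hm
    have h2 : ∀ b, ((m ^ (sc b + 1) : ℕ) : ℝ) ≤ (m : ℝ) ^ m ^ 2 := by
      intro b
      push_cast
      exact pow_le_pow_right₀ hm1 (hsc b)
    have h3 := mul_le_mul (h2 (β i)) (h2 (β (p i))) (by positivity) (by positivity)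
    have h4 := Dn_nonneg (F := fun x y => ind red (e (β i) x) (e (β (p i)) y))
      (fun _ _ => ind_nonneg _ _ _)
      (m ^ (sc (β i) + 1) * Wd m t T (m ^ (m ^ 2 - (sc (β i) + 1)) * g (β i))) 0
      (m ^ (sc (β (p i)) + 1) * Wd m t T (m ^ (m ^ 2 - (sc (β (p i)) + 1)) * g (β (p i)))) 0
    refine (mul_le_mul_of_nonneg_right (mul_le_mul_of_nonneg_right h3 h4) (by positivity)).trans
      (le_of_eq ?_)
    ring

end Pool.Agent.P.MP_5faa0b_co
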