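import Pool.Agent.P.MP_5faa0b_co.State

/-! The splitting step, in terms of the potential matrix. -/

namespace Pool.Agent.P.MP_5faa0b_co

open Finset

/-- the relation between the potential matrices before and after a splitting step -/
def StepOut (m : ℕ) (C Θ : ℝ) {B : Type} [Fintype B] (M : B → B → ℝ) (cnt : B → ℕ)
    (M' : B × Fin m → B × Fin m → ℝ) : Prop :=
  ∃ (z : B → B → ℝ) (x : B → Fin m → B → ℝ), (∀ b b', 0 ≤ z b b') ∧
    (∀ b, ∑ b', M b b' / Θ * z b b' ≤ C) ∧ (∀ b d b', 0 ≤ x b d b') ∧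
    (∀ b b', ∑ d, x b d b' ≤ 1) ∧ (∀ b d, ∑ b', M b b' / Θ * x b d b' ≤ 2 / cnt b) ∧
    (∀ q b' (d' : Fin m), cnt b' ≤ d' → M' q (b', d') = 0) ∧
    ∀ b d b' (A : Finset (Fin m)) (k : ℝ), 0 < k → (A.card : ℝ) ≤ k →
      ∑ d' ∈ A, M' (b, d) (b', d') ≤ k ^ (1 / 4 : ℝ) * Θ *
        (M b b' / Θ * (z b b' ^ (151 / 200 : ℝ) * x b d b' ^ (3 / 4 : ℝ)))

theorem step : ∃ C : ℝ, 0 ≤ C ∧ ∀ {n : ℕ} (red : ℕ → ℕ → Prop) (N t m : ℕ) (p : Fin n → Fin n),
    0 < m → (∀ x y, red x y → red y x) → Function.Involutive p →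
    ∀ (T : ℕ) (B : Type) [Fintype B] (M : B → B → ℝ) (Θ : ℝ) (cnt : B → ℕ),
      St red N t m p (T + 1) B M → 1 / 32 ≤ Θ → (∀ b, ∑ b', M b b' ≤ Θ) →
      (∀ b, 0 < cnt b) → (∀ b, cnt b ≤ m) →
      ∃ M' : B × Fin m → B × Fin m → ℝ, St red N t m p T (B × Fin m) M' ∧
        StepOut m C Θ M cnt M' := by
  obtain ⟨C, hC, hfam⟩ := family_step (γ := 150 / 151) (by norm_num) (by norm_num)
  refine ⟨C, hC, ?_⟩
  intro n red N t m p hm hs hp T B _ M Θ cnt hSt hΘ hrow hc0 hc1
  classical
  have hΘ0 : 0 < Θ := by linarith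
  have hM0 := hSt.nonneg
  have hMs := hSt.symm hs hp
  have hMd := hSt.diag
  obtain ⟨β, e, g, hI, hM⟩ := hSt
  have hy0 : ∀ b b', 0 ≤ M b b' / Θ := fun b b' => div_nonneg (hM0 _ _) hΘ0.le
  have hy1 : ∀ b, ∑ b', M b b' / Θ ≤ 1 := fun b => by
    rw [← sum_div, div_le_one hΘ0]
    exact hrow b
  obtain ⟨sc, c, z, hsc, hc, hz0, hz1, hz2⟩ := hfam m hm B
    (fun b b' x y => ind red (e b x) (e b' y))
    (fun b i => Wd m t T (m ^ (m ^ 2 - i) * g b)) (fun b b' => M b b' / Θ)
    (fun _ _ _ _ => ind_nonneg _ _ _) (by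
      intro b i hi
      rw [show m ^ 2 - i = m ^ 2 - (i + 1) + 1 by omega, pow_succ]
      unfold Wd
      ring) hy0 (fun b => by rw [hMd, zero_div]) hy1 (fun b => by
        simp only [fun b' => hMs b' b]
        exact hy1 b)
  have hW0 : ∀ b, Wd m t T (m ^ (m ^ 2 - 0) * g b) = Wd m t (T + 1) (g b) := by
    intro b
    unfold Wd
    rw [Nat.sub_zero, pow_succ]
    ring
  simp only [hW0] at hz2
  set D := De red e (fun b => Wd m t (T + 1) (g b)) with hD
  have hD0 : ∀ b b', 0 ≤ D b b' := De_nonneg _ _ _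
  -- shares of lines
  set sh : Fin n → ℝ := fun i => if (p i : ℕ) / t ≠ (i : ℕ) / t then
    M (β i) (β (p i)) / Θ / (lines t p β (β i) (β (p i))).card else 0 with hsh
  have hsum : ∀ (q : Fin n → Prop) [DecidablePred q] (b : B), ∑ i with β i = b ∧ q i, sh i =
      ∑ b', M b b' / Θ * (((lines t p β b b').filter q).card / (lines t p β b b').card) := by
    intro q _ b
    rw [← sum_fiberwise (g := fun i => β (p i))]
    refine sum_congr rfl fun b' _ => ?_
    simp only [hsh]
    rw [← sum_filter, filter_filter, filter_filter]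
    rw [sum_congr (s₂ := (lines t p β b b').filter q) (g := fun _ =>
      M b b' / Θ / (lines t p β b b').card)]
    · rw [sum_const, nsmul_eq_mul]
      ring
    · ext i
      simp only [mem_filter, mem_univ, true_and, mem_lines]
      tauto
    · intro i hi
      simp only [mem_filter, mem_lines] at hi
      rw [hi.1.1, hi.1.2.1]
  have hm1 : (1 : ℝ) ≤ m := by exact_mod_cast hm
  obtain ⟨part, hpart0, hpart1, hpart2⟩ := exists_part β sh cnt hc0 (fun i => by
      simp only [hsh]
      split_ifs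
      · exact div_nonneg (hy0 _ _) (Nat.cast_nonneg _)
      · exact le_rfl) (fun i => by
      simp only [hsh]
      have hcp : (0 : ℝ) < cnt (β i) := by have := hc0 (β i); positivity
      split_ifs with hi
      · have h1 : 1 ≤ (lines t p β (β i) (β (p i))).card :=
          card_pos.2 ⟨i, mem_lines.2 ⟨rfl, rfl, hi⟩⟩
        have h2 : (1 : ℝ) ≤ (lines t p β (β i) (β (p i))).card := by exact_mod_cast h1
        have h3 := hI.small i hi
        rw [← hD] at h3
        have h4 : D (β i) (β (p i)) ≤ 1 / (32 * (m : ℝ)) ^ 2 :=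
          le_trans (le_mul_of_one_le_right (hD0 _ _)
            (one_le_pow₀ (one_le_pow₀ (one_le_pow₀ hm1)))) h3
        have h5 : D (β i) (β (p i)) ^ (3 / 4 : ℝ) ≤ 1 / (32 * (m : ℝ)) := by
          refine (Real.rpow_le_rpow (hD0 _ _) h4 (by norm_num)).trans ?_
          rw [← one_div_pow, ← Real.rpow_natCast, ← Real.rpow_mul (by positivity)]
          refine (Real.rpow_le_rpow_of_exponent_ge (by positivity) ?_ (z := 1)
            (by norm_num)).trans (Real.rpow_one _).le
          rw [div_le_one (by positivity)]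
          linarith
        have h6 : ((lines t p β (β i) (β (p i))).card : ℝ) ^ (3 / 4 : ℝ) ≤
            (lines t p β (β i) (β (p i))).card :=
          (Real.rpow_le_rpow_of_exponent_le h2 (by norm_num)).trans (Real.rpow_one _).le
        rw [hM, Real.mul_rpow (by positivity) (hD0 _ _), div_div, div_le_iff₀ (by positivity)]
        refine (mul_le_mul h6 h5 (Real.rpow_nonneg (hD0 _ _) _) (by positivity)).trans ?_
        have h7 : (cnt (β i) : ℝ) ≤ m := by exact_mod_cast hc1 (β i)
        have h8 : 1 / (32 * (m : ℝ)) ≤ 1 / cnt (β i) * Θ := by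
          rw [div_le_iff₀ (by positivity), show 1 / (cnt (β i) : ℝ) * Θ * (32 * m) =
            (32 * Θ) * (m / cnt (β i)) by ring]
          exact one_le_mul_of_one_le_of_one_le (by linarith) ((one_le_div hcp).2 h7)
        nlinarith
      · positivity) (fun b => by
      have := hsum (fun _ => True) b
      simp only [and_true, filter_true] at this
      rw [this]
      refine le_trans (sum_le_sum fun b' _ => ?_) (hy1 b)
      exact mul_le_of_le_one_right (hy0 _ _) (div_self_le_one _))
  set pt : Fin n → Fin m := fun i => ⟨part i, (hpart0 i).trans_le (hc1 _)⟩ with hpt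
  have hI' := hI.split hm sc c hsc hc pt (fun i j hij hβ => hpart1 i j hij hβ)
  refine ⟨_, ⟨_, _, _, hI', fun _ _ => rfl⟩, z, fun b d b' =>
    ((lines t p β b b').filter fun i => pt i = d).card / (lines t p β b b').card, hz0, hz1,
    fun _ _ _ => by positivity, ?_, ?_, ?_, ?_⟩
  · intro b b'
    rw [← sum_div, ← Nat.cast_sum, ← card_eq_sum_card_fiberwise (fun _ _ => mem_univ _)]
    exact div_self_le_one _
  · intro b d
    simp only
    rw [← hsum (fun i => pt i = d) b]
    refine le_trans (le_of_eq ?_) (hpart2 b d)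
    refine sum_congr ?_ fun _ _ => rfl
    ext i
    simp only [mem_filter, mem_univ, true_and, hpt, Fin.ext_iff]
  · intro q b' d' hd'
    have : lines t p (fun i => (β i, pt i)) q (b', d') = ∅ := by
      refine eq_empty_of_forall_notMem fun i hi => ?_
      rw [mem_lines] at hi
      have h1 := hi.2.1
      simp only [Prod.mk.injEq] at h1
      have h2 := hpart0 (p i)
      rw [h1.1] at h2
      have h3 : part (p i) = d' := congrArg Fin.val h1.2
      omega
    simp [this]
  · intro b d b' A k hk hA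
    simp only
    set nn : ℝ := ((lines t p β b b').card : ℝ) with hnn
    set X : ℝ := (((lines t p β b b').filter fun i => pt i = d).card : ℝ) with hX
    set nn' : Fin m → ℝ := fun d' => ((lines t p (fun i => (β i, pt i)) (b, d) (b', d')).card : ℝ)
      with hnn'
    have h1 : ∑ d' ∈ A, nn' d' ≤ X := by
      refine le_trans (sum_le_sum_of_subset_of_nonneg (subset_univ A) fun _ _ _ => by positivity) ?_
      simp only [hnn', hX]
      rw [← Nat.cast_sum, card_eq_sum_card_fiberwise (f := fun i => pt (p i))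
        (t := univ) (fun _ _ => mem_univ _)]
      refine Nat.cast_le.2 (sum_le_sum fun d' _ => card_le_card fun i hi => ?_)
      simp only [mem_filter, mem_lines, Prod.mk.injEq] at hi ⊢
      tauto
    have h2 := sum_rpow_le' (γ := 3 / 4) (by norm_num) (by norm_num) A nn'
      (fun _ _ => by positivity) hA hk (by positivity) h1
    have h3 : ∀ d' : Fin m, De red (fun (q : B × Fin m) x => e q.1 ((c q.1 * m + q.2) *
        Wd m t T (m ^ (m ^ 2 - (sc q.1 + 1)) * g q.1) + x))
        (fun q => Wd m t T (m ^ (m ^ 2 - (sc q.1 + 1)) * g q.1)) (b, d) (b', d') ^ (3 / 4 : ℝ) ≤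
        z b b' ^ (151 / 200 : ℝ) * D b b' ^ (3 / 4 : ℝ) := by
      intro d'
      have h4 := hz2 b b' d d.2 d' d'.2
      rw [← Dn_shift] at h4
      have h5 := Real.rpow_le_rpow (Real.rpow_nonneg (Dn_nonneg (fun _ _ => ind_nonneg _ _ _)
        _ _ _ _) _) h4 (z := 151 / 200) (by norm_num)
      rw [← Real.rpow_mul (Dn_nonneg (fun _ _ => ind_nonneg _ _ _) _ _ _ _),
        Real.mul_rpow (hz0 _ _) (Real.rpow_nonneg (Dn_nonneg (fun _ _ => ind_nonneg _ _ _)
        _ _ _ _) _), ← Real.rpow_mul (Dn_nonneg (fun _ _ => ind_nonneg _ _ _) _ _ _ _),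
        show (150 / 151 * (151 / 200) : ℝ) = 3 / 4 by norm_num] at h5
      exact h5
    have h6 : X ^ (3 / 4 : ℝ) = (X / nn) ^ (3 / 4 : ℝ) * nn ^ (3 / 4 : ℝ) := by
      rw [← Real.mul_rpow (by positivity) (by positivity)]
      congr 1
      rcases Nat.eq_zero_or_pos (lines t p β b b').card with h | h
      · have : X = 0 := by
          simp only [hX]
          rw [card_eq_zero.1 h]
          simp
        rw [this]
        simp
      · have : nn ≠ 0 := by positivity
        field_simp
    refine le_trans (sum_le_sum (g := fun d' => nn' d' ^ (3 / 4 : ℝ) *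
      (z b b' ^ (151 / 200 : ℝ) * D b b' ^ (3 / 4 : ℝ))) fun d' _ => ?_) ?_
    · rw [Real.mul_rpow (by positivity) (De_nonneg _ _ _ _ _)]
      exact mul_le_mul_of_nonneg_left (h3 d') (by positivity)
    · rw [← sum_mul]
      refine (mul_le_mul_of_nonneg_right h2 (mul_nonneg (Real.rpow_nonneg (hz0 _ _) _)
        (Real.rpow_nonneg (hD0 _ _) _))).trans (le_of_eq ?_)
      rw [hM, Real.mul_rpow (by positivity) (hD0 _ _), h6, ← hnn,
        show (1 - 3 / 4 : ℝ) = 1 / 4 by norm_num]
      field_simp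

end Pool.Agent.P.MP_5faa0b_co
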